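import Pool.Agent.H78.STN.Stmts2

/-!
# Board STP: finite cycles of Collatz's permutation with at most ELEVEN local minima (MP_9010c3)

THEOREM.  As FI4, with ELEVEN in place of four.

PROOF.  Let `m0 ≥ 2` be the least element of the cycle and `B` the number of descending steps.  Going back
from `m0`: a descending block of `b` steps which ends in `w` has `2 ^ b ∣ w`, so `b ≤ log2 w`, and its top is
`(3/2) ^ b w ≤ w ^ (8/5)`; so `B ≤ (∑ i < 11, (8/5) ^ i) log2 m0 ≤ 292 log2 m0` (CHB).  By SU2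
`|k log (4/3) - B log 2| ≤ 11 / (m0 - 1)`, so `k` is at most `704 log2 m0`.  By DIO `k < 2500000` (BGK), by the
convergents `m0 ≤ 275001` (CKK).  Computation with 2200000 steps (ENJ).
-/

set_option autoImplicit false

open Finset Pool.Agent.H40.COL

namespace Pool.STN

/-- number of descending steps -/
def dnc (m k : ℕ) : ℕ := ((range k).filter fun j => F^[j] m % 3 = 0).card

/-- SU2 (20, from the proof of SUM_thm, H21/STN/SUM.lean). -/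
def SU2Stmt : Prop :=
  ∀ m k m0 : ℕ, 1 ≤ k → F^[k] m = m → 2 ≤ m0 → (∀ j, m0 ≤ F^[j] m) → ∃ U : ℕ, U + dnc m k = k ∧
    |((k + U : ℕ) : ℝ) * Real.log 2 - (k : ℝ) * Real.log 3| ≤ (lm F m k : ℝ) / ((m0 : ℝ) - 1)

/-- CHB (120). `x_j = F^[j] m0`.  For `j ≤ k` with `x_j % 3 ≠ 0` let `L` be the number of `i`, `j ≤ i < k`, with
`x_i % 3 = 0`, `x_(i+1) % 3 ≠ 0`, and `D` the number of `i`, `j ≤ i < k`, with `x_i % 3 = 0`.  Claim, by strong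
induction on `k - j`: `log2 x_j ≤ (8/5) ^ L log2 m0` and `D ≤ (∑ i < L, (8/5) ^ i) log2 m0`.  If
`x_(j+1) % 3 ≠ 0`: `x_j < x_(j+1)`.  Otherwise let `e > j + 1` be the first index with `x_e % 3 ≠ 0`
(`x_k = m0 % 3 ≠ 0`, as `m0 ≤ F m0`), `b = e - (j+1)`: `x_(j+1) * 2 ^ b = 3 ^ b * x_e`, `2 ^ b ∣ x_e`,
`2 ^ b ≤ x_e`, `x_j < x_(j+1) ≤ x_e ^ (8/5)` (`(3/2) ^ 5 ≤ 8`), `D` is `b` larger and `L` one larger than for
`e`.  `j = 0` is the theorem (`L ≤ lm F m0 k`). -/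
def CHBStmt : Prop :=
  ∀ m0 k K : ℕ, 2 ≤ m0 → 1 ≤ k → F^[k] m0 = m0 → (∀ j, m0 ≤ F^[j] m0) → lm F m0 k ≤ K →
    (dnc m0 k : ℝ) * Real.log 2 ≤ (∑ i ∈ range K, ((8 : ℝ) / 5) ^ i) * Real.log m0

/-- BGK (60, needs DIO). Copy of BG4 (H77/STN/BG4.lean) with `n = k / 17000 ≥ 147`:
`k log (4/3) ≤ (k - U) log 2 + 11 ≤ 292 log m0 + 11`, so `log m0 ≥ 16 n`. -/
def BGKStmt : Prop :=
  ∀ k U m0 : ℕ, U ≤ k → 2500000 ≤ k → 2 ≤ m0 → ((k - U : ℕ) : ℝ) * Real.log 2 ≤ 292 * Real.log m0 →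
    |((k + U : ℕ) : ℝ) * Real.log 2 - (k : ℝ) * Real.log 3| ≤ 11 / ((m0 : ℝ) - 1) → False

/-- CKK (60, needs CNV CW2 CW3 BGK). Copy of CH4 (H56/STN/CH4.lean): if `m0 > 275001`, then
`k log (4/3) ≤ 292 log m0 + 1`; BGK: `k < 2500000`; CW3: `m0 - 1 ≤ 11 / 6e-8`, `log m0 ≤ 19.03`,
`k ≤ 19400 < 31867`; CW2: `m0 - 1 ≤ 11 / 18e-6`, `log m0 ≤ 13.33`, `k ≤ 13600 < 15601`; CNV:
`m0 - 1 ≤ 11 / 4e-5 = 275000`. -/
def CKKStmt : Prop :=
  ∀ k U m0 : ℕ, 1 ≤ k → U ≤ k → 2 ≤ m0 → ((k - U : ℕ) : ℝ) * Real.log 2 ≤ 292 * Real.log m0 →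
    |((k + U : ℕ) : ℝ) * Real.log 2 - (k : ℝ) * Real.log 3| ≤ 11 / ((m0 : ℝ) - 1) → m0 ≤ 275001

/-- simulation from `x`: `true` if a value less than `m0` is reached, or `c + 1` local minima are passed,
none of them equal to `m0`, in at most `n` steps -/
noncomputable def simb (m0 : ℕ) (n : ℕ) : ℕ → ℕ → Bool :=
  Nat.rec (motive := fun _ => ℕ → ℕ → Bool) (fun _ _ => false)
    (fun _ ih x c =>
      bif Nat.beq (x % 3) 0 then
        (bif Nat.blt (2 * (x / 3)) m0 then true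
        else bif Nat.beq (2 * (x / 3) % 3) 0 then ih (2 * (x / 3)) c
        else bif Nat.beq (2 * (x / 3)) m0 then false
        else bif Nat.beq c 0 then true
        else ih (2 * (x / 3)) (c - 1))
      else bif Nat.beq (x % 3) 1 then ih ((4 * x - 1) / 3) c
      else ih ((4 * x + 1) / 3) c) n

/-- the numbers `s, s + 2, …, s + 2 n - 2` are checked -/
noncomputable def blkb (n s : ℕ) : Bool :=
  Nat.rec (motive := fun _ => ℕ → Bool) (fun _ => true)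
   (fun _ ih s => (Nat.beq (s % 3) 0 || simb s 120 s 10) && ih (s + 2)) n s

/-- `m0` passes eleven local minima before it returns -/
def esck (m0 : ℕ) : Prop :=
  ∃ T : ℕ, (∀ j, 1 ≤ j → j ≤ T → F^[j] m0 ≠ m0) ∧
    11 ≤ ((range T).filter fun j => F^[j] m0 % 3 = 0 ∧ F^[j + 1] m0 % 3 ≠ 0).card

/-- SIK (80). Correctness, for a least element; copy of SIM. -/
def SIKStmt : Prop :=
  ∀ n m0 : ℕ, 2 ≤ m0 → m0 % 2 = 0 → m0 % 3 ≠ 0 → (∀ j, m0 ≤ F^[j] m0) → simb m0 n m0 10 = true →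
    esck m0

/-- EJC `c` for `c < 14`: computation, helper78 makes the files (20 blocks each). -/
def EJCStmt (c : ℕ) : Prop := ∀ i : ℕ, i < 20 → 1 ≤ 20 * c + i → blkb 500 (1000 * (20 * c + i)) = true

/-- ENJ (50). Note that `blkb 500 s` covers `s, s + 2, …, s + 998`.  The numbers less than `1000`: `decide`
(`44` is the only exception besides `2` and `4`; compute with `blkb 19 6` and `blkb 477 46`). -/
def ENJStmt : Prop :=
  (∀ c, c < 14 → EJCStmt c) → ∀ m0 : ℕ, m0 ≤ 275001 → m0 % 2 = 0 → m0 % 3 ≠ 0 → 5 ≤ m0 → m0 ≠ 44 →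
    simb m0 120 m0 10 = true

/-- ESK (60, needs TRI). Copy of ESC. -/
def ESKStmt : Prop :=
  ∀ m0 k : ℕ, 2 ≤ m0 → 1 ≤ k → F^[k] m0 = m0 → m0 % 2 = 0 → m0 % 3 ≠ 0 → esck m0 → 12 ≤ lm F m0 k

/-- FIK (80, needs SU2 CKK CHB SIK ROT ESK LEA FEQ). Copy of FI4 (H46/STN/FI4.lean); SU2 and CHB are
applied to `m0 = F^[i] m` itself; `∑ i < 11, (8/5) ^ i ≤ 292`. -/
def FIKStmt : Prop :=
  (∀ c, c < 14 → EJCStmt c) → ENJStmt →
  ∀ f : ℕ → ℕ, (∀ n : ℕ, 1 ≤ n → f (3 * n) = 2 * n ∧ f (3 * n - 1) = 4 * n - 1 ∧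
    f (3 * n - 2) = 4 * n - 3) → ∀ m k : ℕ, 1 ≤ m → 1 ≤ k → f^[k] m = m →
    ((Finset.range k).filter fun j => f^[j + 1] m < f^[j] m ∧ f^[j + 1] m < f^[j + 2] m).card ≤ 11 →
    m ∈ ({1, 2, 3, 4, 5, 6, 7, 9, 44, 59, 79, 105, 70, 93, 62, 83, 111, 74, 99, 66} : Finset ℕ)

end Pool.STN
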