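import Pool.Agent.H28.STN.PZQ
import Pool.Agent.H56.STN.INT
import Pool.Agent.H22.STN.DIV
import Pool.Agent.H18.STN.IVL
import Pool.Agent.H46.STN.PBD
import Pool.Agent.H89.STN.JBD
import Pool.Agent.H89.STN.CBD
import Pool.Agent.H31.STN.NAD
import Pool.Agent.H24.STN.NLN
import Pool.Agent.H54.STN.NRC
import Pool.Agent.H14.STN.NUP
import Pool.Agent.H89.STN.ITP
import Pool.Agent.H20.STN.NZR
import Pool.Agent.H22.STN.MUL
import Pool.Agent.H62.STN.MLB
import Pool.Agent.H45.STN.LC0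
import Pool.Agent.H38.STN.LCB
import Pool.Agent.H72.STN.DIO
import Pool.Agent.H27.STN.CNV
import Pool.Agent.H41.STN.FEQ
import Pool.Agent.H1.STN.TRI

/-!
# Board STN: assembly
-/

set_option autoImplicit false

namespace Pool.STN

theorem nln_all : NLNStmt := NLN_thm NAD_thm

theorem nrc_all : NRCStmt := NRC_thm NAD_thm nln_all

theorem nzr_all : NZRStmt := NZR_thm NAD_thm nln_all (NUP_thm nrc_all) ITP_thm

theorem lcb_all : LCBStmt := LCB_thm MUL_thm MLB_thm lc0_thm

theorem dio_all : DIOStmt :=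
  DIO_thm (DIV_thm PZQ_thm INT_thm) (IVL_thm PZQ_thm) (JBD_thm PBD_thm) CBD_thm nzr_all lcb_all

end Pool.STN
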