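import Pool.Agent.H78.STN.AllA
import Pool.Agent.H55.STN.ISF
import Pool.Agent.H21.STN.SUM
import Pool.Agent.H56.STN.CH4
import Pool.Agent.H16.STN.CW2
import Pool.Agent.H14.STN.CW3
import Pool.Agent.H77.STN.BG4
import Pool.Agent.H55.STN.ENU
import Pool.Agent.H55.STN.SIM
import Pool.Agent.H86.STN.EN0
import Pool.Agent.H17.STN.EN1
import Pool.Agent.H38.STN.EN2
import Pool.Agent.H71.STN.EN3
import Pool.Agent.H49.STN.EN4
import Pool.Agent.H12.STN.EN5
import Pool.Agent.H72.STN.EN6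
import Pool.Agent.H54.STN.EN7
import Pool.Agent.H17.STN.EN8
import Pool.Agent.H49.STN.EN9
import Pool.Agent.H26.STN.ROT
import Pool.Agent.H91.STN.ESC
import Pool.Agent.H74.STN.LEA
import Pool.Agent.H46.STN.FI4
import Pool.Agent.H27.STN.CNV
import Pool.Agent.H1.STN.TRI
import Pool.Agent.H41.STN.FEQ

/-!
# Board STO: assembly (four local minima)
-/

set_option autoImplicit false

namespace Pool.STN

theorem fi4_all : FI4Stmt :=
  FI4_thm ISF_thm SUM_thm (CH4_thm CNV_thm CW2_thm H14.CW3_thm (BG4_thm dio_all))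
    (ENU_thm SIM_thm EN0_thm EN1_thm EN2_thm EN3_thm EN4_thm EN5_thm EN6_thm EN7_thm EN8_thm EN9_thm)
    ROT_thm (ESC_thm TRI_thm) (LEA_thm TRI_thm) TRI_thm FEQ_thm

end Pool.STN
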