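import Pool.Agent.H78.STN.Stmts3

/-!
# Board STO, computation EJC 0
-/

set_option autoImplicit false

namespace Pool.STN

theorem ejc0_1 : blkb 500 1000 = true := by decide +kernel

theorem ejc0_2 : blkb 500 2000 = true := by decide +kernel

theorem ejc0_3 : blkb 500 3000 = true := by decide +kernel

theorem ejc0_4 : blkb 500 4000 = true := by decide +kernel

theorem ejc0_5 : blkb 500 5000 = true := by decide +kernel

theorem ejc0_6 : blkb 500 6000 = true := by decide +kernel

theorem ejc0_7 : blkb 500 7000 = true := by decide +kernel

theorem ejc0_8 : blkb 500 8000 = true := by decide +kernel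

theorem ejc0_9 : blkb 500 9000 = true := by decide +kernel

theorem ejc0_10 : blkb 500 10000 = true := by decide +kernel

theorem ejc0_11 : blkb 500 11000 = true := by decide +kernel

theorem ejc0_12 : blkb 500 12000 = true := by decide +kernel

theorem ejc0_13 : blkb 500 13000 = true := by decide +kernel

theorem ejc0_14 : blkb 500 14000 = true := by decide +kernel

theorem ejc0_15 : blkb 500 15000 = true := by decide +kernel

theorem ejc0_16 : blkb 500 16000 = true := by decide +kernel

theorem ejc0_17 : blkb 500 17000 = true := by decide +kernel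

theorem ejc0_18 : blkb 500 18000 = true := by decide +kernel

theorem ejc0_19 : blkb 500 19000 = true := by decide +kernel

theorem EJC0_thm : EJCStmt 0 := by
  intro i hi h
  have e : ∀ s t : ℕ, t = s → blkb 500 t = true → blkb 500 s = true := by
    rintro s t rfl h
    exact h
  interval_cases i
  · omega
  · exact e _ _ (by norm_num) ejc0_1
  · exact e _ _ (by norm_num) ejc0_2
  · exact e _ _ (by norm_num) ejc0_3
  · exact e _ _ (by norm_num) ejc0_4
  · exact e _ _ (by norm_num) ejc0_5
  · exact e _ _ (by norm_num) ejc0_6
  · exact e _ _ (by norm_num) ejc0_7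
  · exact e _ _ (by norm_num) ejc0_8
  · exact e _ _ (by norm_num) ejc0_9
  · exact e _ _ (by norm_num) ejc0_10
  · exact e _ _ (by norm_num) ejc0_11
  · exact e _ _ (by norm_num) ejc0_12
  · exact e _ _ (by norm_num) ejc0_13
  · exact e _ _ (by norm_num) ejc0_14
  · exact e _ _ (by norm_num) ejc0_15
  · exact e _ _ (by norm_num) ejc0_16
  · exact e _ _ (by norm_num) ejc0_17
  · exact e _ _ (by norm_num) ejc0_18
  · exact e _ _ (by norm_num) ejc0_19

end Pool.STN
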