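import Pool.Agent.H78.STN.Stmts3

/-!
# Board STO, computation EJC 10
-/

set_option autoImplicit false

namespace Pool.STN

theorem ejc10_0 : blkb 500 200000 = true := by decide +kernel

theorem ejc10_1 : blkb 500 201000 = true := by decide +kernel

theorem ejc10_2 : blkb 500 202000 = true := by decide +kernel

theorem ejc10_3 : blkb 500 203000 = true := by decide +kernel

theorem ejc10_4 : blkb 500 204000 = true := by decide +kernel

theorem ejc10_5 : blkb 500 205000 = true := by decide +kernel

theorem ejc10_6 : blkb 500 206000 = true := by decide +kernel

theorem ejc10_7 : blkb 500 207000 = true := by decide +kernel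

theorem ejc10_8 : blkb 500 208000 = true := by decide +kernel

theorem ejc10_9 : blkb 500 209000 = true := by decide +kernel

theorem ejc10_10 : blkb 500 210000 = true := by decide +kernel

theorem ejc10_11 : blkb 500 211000 = true := by decide +kernel

theorem ejc10_12 : blkb 500 212000 = true := by decide +kernel

theorem ejc10_13 : blkb 500 213000 = true := by decide +kernel

theorem ejc10_14 : blkb 500 214000 = true := by decide +kernel

theorem ejc10_15 : blkb 500 215000 = true := by decide +kernel

theorem ejc10_16 : blkb 500 216000 = true := by decide +kernel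

theorem ejc10_17 : blkb 500 217000 = true := by decide +kernel

theorem ejc10_18 : blkb 500 218000 = true := by decide +kernel

theorem ejc10_19 : blkb 500 219000 = true := by decide +kernel

theorem EJC10_thm : EJCStmt 10 := by
  intro i hi h
  have e : ∀ s t : ℕ, t = s → blkb 500 t = true → blkb 500 s = true := by
    rintro s t rfl h
    exact h
  interval_cases i
  · exact e _ _ (by norm_num) ejc10_0
  · exact e _ _ (by norm_num) ejc10_1
  · exact e _ _ (by norm_num) ejc10_2
  · exact e _ _ (by norm_num) ejc10_3
  · exact e _ _ (by norm_num) ejc10_4
  · exact e _ _ (by norm_num) ejc10_5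
  · exact e _ _ (by norm_num) ejc10_6
  · exact e _ _ (by norm_num) ejc10_7
  · exact e _ _ (by norm_num) ejc10_8
  · exact e _ _ (by norm_num) ejc10_9
  · exact e _ _ (by norm_num) ejc10_10
  · exact e _ _ (by norm_num) ejc10_11
  · exact e _ _ (by norm_num) ejc10_12
  · exact e _ _ (by norm_num) ejc10_13
  · exact e _ _ (by norm_num) ejc10_14
  · exact e _ _ (by norm_num) ejc10_15
  · exact e _ _ (by norm_num) ejc10_16
  · exact e _ _ (by norm_num) ejc10_17
  · exact e _ _ (by norm_num) ejc10_18
  · exact e _ _ (by norm_num) ejc10_19

end Pool.STN
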