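import Pool.Agent.H78.STN.Stmts3

/-!
# Board STO, computation EJC 11
-/

set_option autoImplicit false

namespace Pool.STN

theorem ejc11_0 : blkb 500 220000 = true := by decide +kernel

theorem ejc11_1 : blkb 500 221000 = true := by decide +kernel

theorem ejc11_2 : blkb 500 222000 = true := by decide +kernel

theorem ejc11_3 : blkb 500 223000 = true := by decide +kernel

theorem ejc11_4 : blkb 500 224000 = true := by decide +kernel

theorem ejc11_5 : blkb 500 225000 = true := by decide +kernel

theorem ejc11_6 : blkb 500 226000 = true := by decide +kernel

theorem ejc11_7 : blkb 500 227000 = true := by decide +kernel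

theorem ejc11_8 : blkb 500 228000 = true := by decide +kernel

theorem ejc11_9 : blkb 500 229000 = true := by decide +kernel

theorem ejc11_10 : blkb 500 230000 = true := by decide +kernel

theorem ejc11_11 : blkb 500 231000 = true := by decide +kernel

theorem ejc11_12 : blkb 500 232000 = true := by decide +kernel

theorem ejc11_13 : blkb 500 233000 = true := by decide +kernel

theorem ejc11_14 : blkb 500 234000 = true := by decide +kernel

theorem ejc11_15 : blkb 500 235000 = true := by decide +kernel

theorem ejc11_16 : blkb 500 236000 = true := by decide +kernel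

theorem ejc11_17 : blkb 500 237000 = true := by decide +kernel

theorem ejc11_18 : blkb 500 238000 = true := by decide +kernel

theorem ejc11_19 : blkb 500 239000 = true := by decide +kernel

theorem EJC11_thm : EJCStmt 11 := by
  intro i hi h
  have e : ∀ s t : ℕ, t = s → blkb 500 t = true → blkb 500 s = true := by
    rintro s t rfl h
    exact h
  interval_cases i
  · exact e _ _ (by norm_num) ejc11_0
  · exact e _ _ (by norm_num) ejc11_1
  · exact e _ _ (by norm_num) ejc11_2
  · exact e _ _ (by norm_num) ejc11_3
  · exact e _ _ (by norm_num) ejc11_4
  · exact e _ _ (by norm_num) ejc11_5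
  · exact e _ _ (by norm_num) ejc11_6
  · exact e _ _ (by norm_num) ejc11_7
  · exact e _ _ (by norm_num) ejc11_8
  · exact e _ _ (by norm_num) ejc11_9
  · exact e _ _ (by norm_num) ejc11_10
  · exact e _ _ (by norm_num) ejc11_11
  · exact e _ _ (by norm_num) ejc11_12
  · exact e _ _ (by norm_num) ejc11_13
  · exact e _ _ (by norm_num) ejc11_14
  · exact e _ _ (by norm_num) ejc11_15
  · exact e _ _ (by norm_num) ejc11_16
  · exact e _ _ (by norm_num) ejc11_17
  · exact e _ _ (by norm_num) ejc11_18
  · exact e _ _ (by norm_num) ejc11_19

end Pool.STN
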