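import Pool.Agent.H78.STN.Stmts3

/-!
# Board STO, computation EJC 12
-/

set_option autoImplicit false

namespace Pool.STN

theorem ejc12_0 : blkb 500 240000 = true := by decide +kernel

theorem ejc12_1 : blkb 500 241000 = true := by decide +kernel

theorem ejc12_2 : blkb 500 242000 = true := by decide +kernel

theorem ejc12_3 : blkb 500 243000 = true := by decide +kernel

theorem ejc12_4 : blkb 500 244000 = true := by decide +kernel

theorem ejc12_5 : blkb 500 245000 = true := by decide +kernel

theorem ejc12_6 : blkb 500 246000 = true := by decide +kernel

theorem ejc12_7 : blkb 500 247000 = true := by decide +kernel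

theorem ejc12_8 : blkb 500 248000 = true := by decide +kernel

theorem ejc12_9 : blkb 500 249000 = true := by decide +kernel

theorem ejc12_10 : blkb 500 250000 = true := by decide +kernel

theorem ejc12_11 : blkb 500 251000 = true := by decide +kernel

theorem ejc12_12 : blkb 500 252000 = true := by decide +kernel

theorem ejc12_13 : blkb 500 253000 = true := by decide +kernel

theorem ejc12_14 : blkb 500 254000 = true := by decide +kernel

theorem ejc12_15 : blkb 500 255000 = true := by decide +kernel

theorem ejc12_16 : blkb 500 256000 = true := by decide +kernel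

theorem ejc12_17 : blkb 500 257000 = true := by decide +kernel

theorem ejc12_18 : blkb 500 258000 = true := by decide +kernel

theorem ejc12_19 : blkb 500 259000 = true := by decide +kernel

theorem EJC12_thm : EJCStmt 12 := by
  intro i hi h
  have e : ∀ s t : ℕ, t = s → blkb 500 t = true → blkb 500 s = true := by
    rintro s t rfl h
    exact h
  interval_cases i
  · exact e _ _ (by norm_num) ejc12_0
  · exact e _ _ (by norm_num) ejc12_1
  · exact e _ _ (by norm_num) ejc12_2
  · exact e _ _ (by norm_num) ejc12_3
  · exact e _ _ (by norm_num) ejc12_4
  · exact e _ _ (by norm_num) ejc12_5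
  · exact e _ _ (by norm_num) ejc12_6
  · exact e _ _ (by norm_num) ejc12_7
  · exact e _ _ (by norm_num) ejc12_8
  · exact e _ _ (by norm_num) ejc12_9
  · exact e _ _ (by norm_num) ejc12_10
  · exact e _ _ (by norm_num) ejc12_11
  · exact e _ _ (by norm_num) ejc12_12
  · exact e _ _ (by norm_num) ejc12_13
  · exact e _ _ (by norm_num) ejc12_14
  · exact e _ _ (by norm_num) ejc12_15
  · exact e _ _ (by norm_num) ejc12_16
  · exact e _ _ (by norm_num) ejc12_17
  · exact e _ _ (by norm_num) ejc12_18
  · exact e _ _ (by norm_num) ejc12_19

end Pool.STN
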