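import Pool.Agent.H78.STN.Stmts3

/-!
# Board STO, computation EJC 13
-/

set_option autoImplicit false

namespace Pool.STN

theorem ejc13_0 : blkb 500 260000 = true := by decide +kernel

theorem ejc13_1 : blkb 500 261000 = true := by decide +kernel

theorem ejc13_2 : blkb 500 262000 = true := by decide +kernel

theorem ejc13_3 : blkb 500 263000 = true := by decide +kernel

theorem ejc13_4 : blkb 500 264000 = true := by decide +kernel

theorem ejc13_5 : blkb 500 265000 = true := by decide +kernel

theorem ejc13_6 : blkb 500 266000 = true := by decide +kernel

theorem ejc13_7 : blkb 500 267000 = true := by decide +kernel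

theorem ejc13_8 : blkb 500 268000 = true := by decide +kernel

theorem ejc13_9 : blkb 500 269000 = true := by decide +kernel

theorem ejc13_10 : blkb 500 270000 = true := by decide +kernel

theorem ejc13_11 : blkb 500 271000 = true := by decide +kernel

theorem ejc13_12 : blkb 500 272000 = true := by decide +kernel

theorem ejc13_13 : blkb 500 273000 = true := by decide +kernel

theorem ejc13_14 : blkb 500 274000 = true := by decide +kernel

theorem ejc13_15 : blkb 500 275000 = true := by decide +kernel

theorem ejc13_16 : blkb 500 276000 = true := by decide +kernel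

theorem ejc13_17 : blkb 500 277000 = true := by decide +kernel

theorem ejc13_18 : blkb 500 278000 = true := by decide +kernel

theorem ejc13_19 : blkb 500 279000 = true := by decide +kernel

theorem EJC13_thm : EJCStmt 13 := by
  intro i hi h
  have e : ∀ s t : ℕ, t = s → blkb 500 t = true → blkb 500 s = true := by
    rintro s t rfl h
    exact h
  interval_cases i
  · exact e _ _ (by norm_num) ejc13_0
  · exact e _ _ (by norm_num) ejc13_1
  · exact e _ _ (by norm_num) ejc13_2
  · exact e _ _ (by norm_num) ejc13_3
  · exact e _ _ (by norm_num) ejc13_4
  · exact e _ _ (by norm_num) ejc13_5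
  · exact e _ _ (by norm_num) ejc13_6
  · exact e _ _ (by norm_num) ejc13_7
  · exact e _ _ (by norm_num) ejc13_8
  · exact e _ _ (by norm_num) ejc13_9
  · exact e _ _ (by norm_num) ejc13_10
  · exact e _ _ (by norm_num) ejc13_11
  · exact e _ _ (by norm_num) ejc13_12
  · exact e _ _ (by norm_num) ejc13_13
  · exact e _ _ (by norm_num) ejc13_14
  · exact e _ _ (by norm_num) ejc13_15
  · exact e _ _ (by norm_num) ejc13_16
  · exact e _ _ (by norm_num) ejc13_17
  · exact e _ _ (by norm_num) ejc13_18
  · exact e _ _ (by norm_num) ejc13_19

end Pool.STN
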