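import Pool.Agent.H78.STN.Stmts3

/-!
# Board STO, computation EJC 2
-/

set_option autoImplicit false

namespace Pool.STN

theorem ejc2_0 : blkb 500 40000 = true := by decide +kernel

theorem ejc2_1 : blkb 500 41000 = true := by decide +kernel

theorem ejc2_2 : blkb 500 42000 = true := by decide +kernel

theorem ejc2_3 : blkb 500 43000 = true := by decide +kernel

theorem ejc2_4 : blkb 500 44000 = true := by decide +kernel

theorem ejc2_5 : blkb 500 45000 = true := by decide +kernel

theorem ejc2_6 : blkb 500 46000 = true := by decide +kernel

theorem ejc2_7 : blkb 500 47000 = true := by decide +kernel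

theorem ejc2_8 : blkb 500 48000 = true := by decide +kernel

theorem ejc2_9 : blkb 500 49000 = true := by decide +kernel

theorem ejc2_10 : blkb 500 50000 = true := by decide +kernel

theorem ejc2_11 : blkb 500 51000 = true := by decide +kernel

theorem ejc2_12 : blkb 500 52000 = true := by decide +kernel

theorem ejc2_13 : blkb 500 53000 = true := by decide +kernel

theorem ejc2_14 : blkb 500 54000 = true := by decide +kernel

theorem ejc2_15 : blkb 500 55000 = true := by decide +kernel

theorem ejc2_16 : blkb 500 56000 = true := by decide +kernel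

theorem ejc2_17 : blkb 500 57000 = true := by decide +kernel

theorem ejc2_18 : blkb 500 58000 = true := by decide +kernel

theorem ejc2_19 : blkb 500 59000 = true := by decide +kernel

theorem EJC2_thm : EJCStmt 2 := by
  intro i hi h
  have e : ∀ s t : ℕ, t = s → blkb 500 t = true → blkb 500 s = true := by
    rintro s t rfl h
    exact h
  interval_cases i
  · exact e _ _ (by norm_num) ejc2_0
  · exact e _ _ (by norm_num) ejc2_1
  · exact e _ _ (by norm_num) ejc2_2
  · exact e _ _ (by norm_num) ejc2_3
  · exact e _ _ (by norm_num) ejc2_4
  · exact e _ _ (by norm_num) ejc2_5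
  · exact e _ _ (by norm_num) ejc2_6
  · exact e _ _ (by norm_num) ejc2_7
  · exact e _ _ (by norm_num) ejc2_8
  · exact e _ _ (by norm_num) ejc2_9
  · exact e _ _ (by norm_num) ejc2_10
  · exact e _ _ (by norm_num) ejc2_11
  · exact e _ _ (by norm_num) ejc2_12
  · exact e _ _ (by norm_num) ejc2_13
  · exact e _ _ (by norm_num) ejc2_14
  · exact e _ _ (by norm_num) ejc2_15
  · exact e _ _ (by norm_num) ejc2_16
  · exact e _ _ (by norm_num) ejc2_17
  · exact e _ _ (by norm_num) ejc2_18
  · exact e _ _ (by norm_num) ejc2_19

end Pool.STN
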