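import Pool.Agent.H78.STN.Stmts3

/-!
# Board STO, computation EJC 3
-/

set_option autoImplicit false

namespace Pool.STN

theorem ejc3_0 : blkb 500 60000 = true := by decide +kernel

theorem ejc3_1 : blkb 500 61000 = true := by decide +kernel

theorem ejc3_2 : blkb 500 62000 = true := by decide +kernel

theorem ejc3_3 : blkb 500 63000 = true := by decide +kernel

theorem ejc3_4 : blkb 500 64000 = true := by decide +kernel

theorem ejc3_5 : blkb 500 65000 = true := by decide +kernel

theorem ejc3_6 : blkb 500 66000 = true := by decide +kernel

theorem ejc3_7 : blkb 500 67000 = true := by decide +kernel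

theorem ejc3_8 : blkb 500 68000 = true := by decide +kernel

theorem ejc3_9 : blkb 500 69000 = true := by decide +kernel

theorem ejc3_10 : blkb 500 70000 = true := by decide +kernel

theorem ejc3_11 : blkb 500 71000 = true := by decide +kernel

theorem ejc3_12 : blkb 500 72000 = true := by decide +kernel

theorem ejc3_13 : blkb 500 73000 = true := by decide +kernel

theorem ejc3_14 : blkb 500 74000 = true := by decide +kernel

theorem ejc3_15 : blkb 500 75000 = true := by decide +kernel

theorem ejc3_16 : blkb 500 76000 = true := by decide +kernel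

theorem ejc3_17 : blkb 500 77000 = true := by decide +kernel

theorem ejc3_18 : blkb 500 78000 = true := by decide +kernel

theorem ejc3_19 : blkb 500 79000 = true := by decide +kernel

theorem EJC3_thm : EJCStmt 3 := by
  intro i hi h
  have e : ∀ s t : ℕ, t = s → blkb 500 t = true → blkb 500 s = true := by
    rintro s t rfl h
    exact h
  interval_cases i
  · exact e _ _ (by norm_num) ejc3_0
  · exact e _ _ (by norm_num) ejc3_1
  · exact e _ _ (by norm_num) ejc3_2
  · exact e _ _ (by norm_num) ejc3_3
  · exact e _ _ (by norm_num) ejc3_4
  · exact e _ _ (by norm_num) ejc3_5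
  · exact e _ _ (by norm_num) ejc3_6
  · exact e _ _ (by norm_num) ejc3_7
  · exact e _ _ (by norm_num) ejc3_8
  · exact e _ _ (by norm_num) ejc3_9
  · exact e _ _ (by norm_num) ejc3_10
  · exact e _ _ (by norm_num) ejc3_11
  · exact e _ _ (by norm_num) ejc3_12
  · exact e _ _ (by norm_num) ejc3_13
  · exact e _ _ (by norm_num) ejc3_14
  · exact e _ _ (by norm_num) ejc3_15
  · exact e _ _ (by norm_num) ejc3_16
  · exact e _ _ (by norm_num) ejc3_17
  · exact e _ _ (by norm_num) ejc3_18
  · exact e _ _ (by norm_num) ejc3_19

end Pool.STN
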