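import Pool.Agent.H78.STN.Stmts3

/-!
# Board STO, computation EJC 4
-/

set_option autoImplicit false

namespace Pool.STN

theorem ejc4_0 : blkb 500 80000 = true := by decide +kernel

theorem ejc4_1 : blkb 500 81000 = true := by decide +kernel

theorem ejc4_2 : blkb 500 82000 = true := by decide +kernel

theorem ejc4_3 : blkb 500 83000 = true := by decide +kernel

theorem ejc4_4 : blkb 500 84000 = true := by decide +kernel

theorem ejc4_5 : blkb 500 85000 = true := by decide +kernel

theorem ejc4_6 : blkb 500 86000 = true := by decide +kernel

theorem ejc4_7 : blkb 500 87000 = true := by decide +kernel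

theorem ejc4_8 : blkb 500 88000 = true := by decide +kernel

theorem ejc4_9 : blkb 500 89000 = true := by decide +kernel

theorem ejc4_10 : blkb 500 90000 = true := by decide +kernel

theorem ejc4_11 : blkb 500 91000 = true := by decide +kernel

theorem ejc4_12 : blkb 500 92000 = true := by decide +kernel

theorem ejc4_13 : blkb 500 93000 = true := by decide +kernel

theorem ejc4_14 : blkb 500 94000 = true := by decide +kernel

theorem ejc4_15 : blkb 500 95000 = true := by decide +kernel

theorem ejc4_16 : blkb 500 96000 = true := by decide +kernel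

theorem ejc4_17 : blkb 500 97000 = true := by decide +kernel

theorem ejc4_18 : blkb 500 98000 = true := by decide +kernel

theorem ejc4_19 : blkb 500 99000 = true := by decide +kernel

theorem EJC4_thm : EJCStmt 4 := by
  intro i hi h
  have e : ∀ s t : ℕ, t = s → blkb 500 t = true → blkb 500 s = true := by
    rintro s t rfl h
    exact h
  interval_cases i
  · exact e _ _ (by norm_num) ejc4_0
  · exact e _ _ (by norm_num) ejc4_1
  · exact e _ _ (by norm_num) ejc4_2
  · exact e _ _ (by norm_num) ejc4_3
  · exact e _ _ (by norm_num) ejc4_4
  · exact e _ _ (by norm_num) ejc4_5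
  · exact e _ _ (by norm_num) ejc4_6
  · exact e _ _ (by norm_num) ejc4_7
  · exact e _ _ (by norm_num) ejc4_8
  · exact e _ _ (by norm_num) ejc4_9
  · exact e _ _ (by norm_num) ejc4_10
  · exact e _ _ (by norm_num) ejc4_11
  · exact e _ _ (by norm_num) ejc4_12
  · exact e _ _ (by norm_num) ejc4_13
  · exact e _ _ (by norm_num) ejc4_14
  · exact e _ _ (by norm_num) ejc4_15
  · exact e _ _ (by norm_num) ejc4_16
  · exact e _ _ (by norm_num) ejc4_17
  · exact e _ _ (by norm_num) ejc4_18
  · exact e _ _ (by norm_num) ejc4_19

end Pool.STN
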