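import Pool.Agent.H78.STN.Stmts3

/-!
# Board STO, computation EJC 5
-/

set_option autoImplicit false

namespace Pool.STN

theorem ejc5_0 : blkb 500 100000 = true := by decide +kernel

theorem ejc5_1 : blkb 500 101000 = true := by decide +kernel

theorem ejc5_2 : blkb 500 102000 = true := by decide +kernel

theorem ejc5_3 : blkb 500 103000 = true := by decide +kernel

theorem ejc5_4 : blkb 500 104000 = true := by decide +kernel

theorem ejc5_5 : blkb 500 105000 = true := by decide +kernel

theorem ejc5_6 : blkb 500 106000 = true := by decide +kernel

theorem ejc5_7 : blkb 500 107000 = true := by decide +kernel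

theorem ejc5_8 : blkb 500 108000 = true := by decide +kernel

theorem ejc5_9 : blkb 500 109000 = true := by decide +kernel

theorem ejc5_10 : blkb 500 110000 = true := by decide +kernel

theorem ejc5_11 : blkb 500 111000 = true := by decide +kernel

theorem ejc5_12 : blkb 500 112000 = true := by decide +kernel

theorem ejc5_13 : blkb 500 113000 = true := by decide +kernel

theorem ejc5_14 : blkb 500 114000 = true := by decide +kernel

theorem ejc5_15 : blkb 500 115000 = true := by decide +kernel

theorem ejc5_16 : blkb 500 116000 = true := by decide +kernel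

theorem ejc5_17 : blkb 500 117000 = true := by decide +kernel

theorem ejc5_18 : blkb 500 118000 = true := by decide +kernel

theorem ejc5_19 : blkb 500 119000 = true := by decide +kernel

theorem EJC5_thm : EJCStmt 5 := by
  intro i hi h
  have e : ∀ s t : ℕ, t = s → blkb 500 t = true → blkb 500 s = true := by
    rintro s t rfl h
    exact h
  interval_cases i
  · exact e _ _ (by norm_num) ejc5_0
  · exact e _ _ (by norm_num) ejc5_1
  · exact e _ _ (by norm_num) ejc5_2
  · exact e _ _ (by norm_num) ejc5_3
  · exact e _ _ (by norm_num) ejc5_4
  · exact e _ _ (by norm_num) ejc5_5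
  · exact e _ _ (by norm_num) ejc5_6
  · exact e _ _ (by norm_num) ejc5_7
  · exact e _ _ (by norm_num) ejc5_8
  · exact e _ _ (by norm_num) ejc5_9
  · exact e _ _ (by norm_num) ejc5_10
  · exact e _ _ (by norm_num) ejc5_11
  · exact e _ _ (by norm_num) ejc5_12
  · exact e _ _ (by norm_num) ejc5_13
  · exact e _ _ (by norm_num) ejc5_14
  · exact e _ _ (by norm_num) ejc5_15
  · exact e _ _ (by norm_num) ejc5_16
  · exact e _ _ (by norm_num) ejc5_17
  · exact e _ _ (by norm_num) ejc5_18
  · exact e _ _ (by norm_num) ejc5_19

end Pool.STN
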