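import Pool.Agent.H78.STN.Stmts3

/-!
# Board STO, computation EJC 6
-/

set_option autoImplicit false

namespace Pool.STN

theorem ejc6_0 : blkb 500 120000 = true := by decide +kernel

theorem ejc6_1 : blkb 500 121000 = true := by decide +kernel

theorem ejc6_2 : blkb 500 122000 = true := by decide +kernel

theorem ejc6_3 : blkb 500 123000 = true := by decide +kernel

theorem ejc6_4 : blkb 500 124000 = true := by decide +kernel

theorem ejc6_5 : blkb 500 125000 = true := by decide +kernel

theorem ejc6_6 : blkb 500 126000 = true := by decide +kernel

theorem ejc6_7 : blkb 500 127000 = true := by decide +kernel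

theorem ejc6_8 : blkb 500 128000 = true := by decide +kernel

theorem ejc6_9 : blkb 500 129000 = true := by decide +kernel

theorem ejc6_10 : blkb 500 130000 = true := by decide +kernel

theorem ejc6_11 : blkb 500 131000 = true := by decide +kernel

theorem ejc6_12 : blkb 500 132000 = true := by decide +kernel

theorem ejc6_13 : blkb 500 133000 = true := by decide +kernel

theorem ejc6_14 : blkb 500 134000 = true := by decide +kernel

theorem ejc6_15 : blkb 500 135000 = true := by decide +kernel

theorem ejc6_16 : blkb 500 136000 = true := by decide +kernel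

theorem ejc6_17 : blkb 500 137000 = true := by decide +kernel

theorem ejc6_18 : blkb 500 138000 = true := by decide +kernel

theorem ejc6_19 : blkb 500 139000 = true := by decide +kernel

theorem EJC6_thm : EJCStmt 6 := by
  intro i hi h
  have e : ∀ s t : ℕ, t = s → blkb 500 t = true → blkb 500 s = true := by
    rintro s t rfl h
    exact h
  interval_cases i
  · exact e _ _ (by norm_num) ejc6_0
  · exact e _ _ (by norm_num) ejc6_1
  · exact e _ _ (by norm_num) ejc6_2
  · exact e _ _ (by norm_num) ejc6_3
  · exact e _ _ (by norm_num) ejc6_4
  · exact e _ _ (by norm_num) ejc6_5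
  · exact e _ _ (by norm_num) ejc6_6
  · exact e _ _ (by norm_num) ejc6_7
  · exact e _ _ (by norm_num) ejc6_8
  · exact e _ _ (by norm_num) ejc6_9
  · exact e _ _ (by norm_num) ejc6_10
  · exact e _ _ (by norm_num) ejc6_11
  · exact e _ _ (by norm_num) ejc6_12
  · exact e _ _ (by norm_num) ejc6_13
  · exact e _ _ (by norm_num) ejc6_14
  · exact e _ _ (by norm_num) ejc6_15
  · exact e _ _ (by norm_num) ejc6_16
  · exact e _ _ (by norm_num) ejc6_17
  · exact e _ _ (by norm_num) ejc6_18
  · exact e _ _ (by norm_num) ejc6_19

end Pool.STN
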