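import Pool.Agent.H78.STN.Stmts3

/-!
# Board STO, computation EJC 7
-/

set_option autoImplicit false

namespace Pool.STN

theorem ejc7_0 : blkb 500 140000 = true := by decide +kernel

theorem ejc7_1 : blkb 500 141000 = true := by decide +kernel

theorem ejc7_2 : blkb 500 142000 = true := by decide +kernel

theorem ejc7_3 : blkb 500 143000 = true := by decide +kernel

theorem ejc7_4 : blkb 500 144000 = true := by decide +kernel

theorem ejc7_5 : blkb 500 145000 = true := by decide +kernel

theorem ejc7_6 : blkb 500 146000 = true := by decide +kernel

theorem ejc7_7 : blkb 500 147000 = true := by decide +kernel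

theorem ejc7_8 : blkb 500 148000 = true := by decide +kernel

theorem ejc7_9 : blkb 500 149000 = true := by decide +kernel

theorem ejc7_10 : blkb 500 150000 = true := by decide +kernel

theorem ejc7_11 : blkb 500 151000 = true := by decide +kernel

theorem ejc7_12 : blkb 500 152000 = true := by decide +kernel

theorem ejc7_13 : blkb 500 153000 = true := by decide +kernel

theorem ejc7_14 : blkb 500 154000 = true := by decide +kernel

theorem ejc7_15 : blkb 500 155000 = true := by decide +kernel

theorem ejc7_16 : blkb 500 156000 = true := by decide +kernel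

theorem ejc7_17 : blkb 500 157000 = true := by decide +kernel

theorem ejc7_18 : blkb 500 158000 = true := by decide +kernel

theorem ejc7_19 : blkb 500 159000 = true := by decide +kernel

theorem EJC7_thm : EJCStmt 7 := by
  intro i hi h
  have e : ∀ s t : ℕ, t = s → blkb 500 t = true → blkb 500 s = true := by
    rintro s t rfl h
    exact h
  interval_cases i
  · exact e _ _ (by norm_num) ejc7_0
  · exact e _ _ (by norm_num) ejc7_1
  · exact e _ _ (by norm_num) ejc7_2
  · exact e _ _ (by norm_num) ejc7_3
  · exact e _ _ (by norm_num) ejc7_4
  · exact e _ _ (by norm_num) ejc7_5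
  · exact e _ _ (by norm_num) ejc7_6
  · exact e _ _ (by norm_num) ejc7_7
  · exact e _ _ (by norm_num) ejc7_8
  · exact e _ _ (by norm_num) ejc7_9
  · exact e _ _ (by norm_num) ejc7_10
  · exact e _ _ (by norm_num) ejc7_11
  · exact e _ _ (by norm_num) ejc7_12
  · exact e _ _ (by norm_num) ejc7_13
  · exact e _ _ (by norm_num) ejc7_14
  · exact e _ _ (by norm_num) ejc7_15
  · exact e _ _ (by norm_num) ejc7_16
  · exact e _ _ (by norm_num) ejc7_17
  · exact e _ _ (by norm_num) ejc7_18
  · exact e _ _ (by norm_num) ejc7_19

end Pool.STN
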