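import Pool.Agent.H78.STN.Stmts3

/-!
# Board STO, computation EJC 8
-/

set_option autoImplicit false

namespace Pool.STN

theorem ejc8_0 : blkb 500 160000 = true := by decide +kernel

theorem ejc8_1 : blkb 500 161000 = true := by decide +kernel

theorem ejc8_2 : blkb 500 162000 = true := by decide +kernel

theorem ejc8_3 : blkb 500 163000 = true := by decide +kernel

theorem ejc8_4 : blkb 500 164000 = true := by decide +kernel

theorem ejc8_5 : blkb 500 165000 = true := by decide +kernel

theorem ejc8_6 : blkb 500 166000 = true := by decide +kernel

theorem ejc8_7 : blkb 500 167000 = true := by decide +kernel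

theorem ejc8_8 : blkb 500 168000 = true := by decide +kernel

theorem ejc8_9 : blkb 500 169000 = true := by decide +kernel

theorem ejc8_10 : blkb 500 170000 = true := by decide +kernel

theorem ejc8_11 : blkb 500 171000 = true := by decide +kernel

theorem ejc8_12 : blkb 500 172000 = true := by decide +kernel

theorem ejc8_13 : blkb 500 173000 = true := by decide +kernel

theorem ejc8_14 : blkb 500 174000 = true := by decide +kernel

theorem ejc8_15 : blkb 500 175000 = true := by decide +kernel

theorem ejc8_16 : blkb 500 176000 = true := by decide +kernel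

theorem ejc8_17 : blkb 500 177000 = true := by decide +kernel

theorem ejc8_18 : blkb 500 178000 = true := by decide +kernel

theorem ejc8_19 : blkb 500 179000 = true := by decide +kernel

theorem EJC8_thm : EJCStmt 8 := by
  intro i hi h
  have e : ∀ s t : ℕ, t = s → blkb 500 t = true → blkb 500 s = true := by
    rintro s t rfl h
    exact h
  interval_cases i
  · exact e _ _ (by norm_num) ejc8_0
  · exact e _ _ (by norm_num) ejc8_1
  · exact e _ _ (by norm_num) ejc8_2
  · exact e _ _ (by norm_num) ejc8_3
  · exact e _ _ (by norm_num) ejc8_4
  · exact e _ _ (by norm_num) ejc8_5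
  · exact e _ _ (by norm_num) ejc8_6
  · exact e _ _ (by norm_num) ejc8_7
  · exact e _ _ (by norm_num) ejc8_8
  · exact e _ _ (by norm_num) ejc8_9
  · exact e _ _ (by norm_num) ejc8_10
  · exact e _ _ (by norm_num) ejc8_11
  · exact e _ _ (by norm_num) ejc8_12
  · exact e _ _ (by norm_num) ejc8_13
  · exact e _ _ (by norm_num) ejc8_14
  · exact e _ _ (by norm_num) ejc8_15
  · exact e _ _ (by norm_num) ejc8_16
  · exact e _ _ (by norm_num) ejc8_17
  · exact e _ _ (by norm_num) ejc8_18
  · exact e _ _ (by norm_num) ejc8_19

end Pool.STN
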