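import Pool.Agent.H78.STN.Stmts3

/-!
# Board STO, computation EJC 9
-/

set_option autoImplicit false

namespace Pool.STN

theorem ejc9_0 : blkb 500 180000 = true := by decide +kernel

theorem ejc9_1 : blkb 500 181000 = true := by decide +kernel

theorem ejc9_2 : blkb 500 182000 = true := by decide +kernel

theorem ejc9_3 : blkb 500 183000 = true := by decide +kernel

theorem ejc9_4 : blkb 500 184000 = true := by decide +kernel

theorem ejc9_5 : blkb 500 185000 = true := by decide +kernel

theorem ejc9_6 : blkb 500 186000 = true := by decide +kernel

theorem ejc9_7 : blkb 500 187000 = true := by decide +kernel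

theorem ejc9_8 : blkb 500 188000 = true := by decide +kernel

theorem ejc9_9 : blkb 500 189000 = true := by decide +kernel

theorem ejc9_10 : blkb 500 190000 = true := by decide +kernel

theorem ejc9_11 : blkb 500 191000 = true := by decide +kernel

theorem ejc9_12 : blkb 500 192000 = true := by decide +kernel

theorem ejc9_13 : blkb 500 193000 = true := by decide +kernel

theorem ejc9_14 : blkb 500 194000 = true := by decide +kernel

theorem ejc9_15 : blkb 500 195000 = true := by decide +kernel

theorem ejc9_16 : blkb 500 196000 = true := by decide +kernel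

theorem ejc9_17 : blkb 500 197000 = true := by decide +kernel

theorem ejc9_18 : blkb 500 198000 = true := by decide +kernel

theorem ejc9_19 : blkb 500 199000 = true := by decide +kernel

theorem EJC9_thm : EJCStmt 9 := by
  intro i hi h
  have e : ∀ s t : ℕ, t = s → blkb 500 t = true → blkb 500 s = true := by
    rintro s t rfl h
    exact h
  interval_cases i
  · exact e _ _ (by norm_num) ejc9_0
  · exact e _ _ (by norm_num) ejc9_1
  · exact e _ _ (by norm_num) ejc9_2
  · exact e _ _ (by norm_num) ejc9_3
  · exact e _ _ (by norm_num) ejc9_4
  · exact e _ _ (by norm_num) ejc9_5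
  · exact e _ _ (by norm_num) ejc9_6
  · exact e _ _ (by norm_num) ejc9_7
  · exact e _ _ (by norm_num) ejc9_8
  · exact e _ _ (by norm_num) ejc9_9
  · exact e _ _ (by norm_num) ejc9_10
  · exact e _ _ (by norm_num) ejc9_11
  · exact e _ _ (by norm_num) ejc9_12
  · exact e _ _ (by norm_num) ejc9_13
  · exact e _ _ (by norm_num) ejc9_14
  · exact e _ _ (by norm_num) ejc9_15
  · exact e _ _ (by norm_num) ejc9_16
  · exact e _ _ (by norm_num) ejc9_17
  · exact e _ _ (by norm_num) ejc9_18
  · exact e _ _ (by norm_num) ejc9_19

end Pool.STN
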