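import Pool.Agent.H78.STN.Stmts3

/-!
# Row SIK of the board `sto`: correctness of the simulation for eleven local minima
(adapted from helper55's proof of SIM)
-/

set_option autoImplicit false

open Finset

namespace Pool.STN

/-- the switches -/
def sik_P (m0 j : ℕ) : Prop := F^[j] m0 % 3 = 0 ∧ F^[j + 1] m0 % 3 ≠ 0

instance (m0 j : ℕ) : Decidable (sik_P m0 j) := inferInstanceAs (Decidable (_ ∧ _))

theorem sik_mono (m0 s T : ℕ) :
    ((Ico (s + 1) T).filter fun j => sik_P m0 j).card ≤ ((Ico s T).filter fun j => sik_P m0 j).card :=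
  card_le_card (filter_subset_filter _ (Ico_subset_Ico_left (Nat.le_succ s)))

theorem sik_add (m0 s T : ℕ) (hT : s + 1 ≤ T) (hP : sik_P m0 s) :
    ((Ico (s + 1) T).filter fun j => sik_P m0 j).card + 1 ≤
      ((Ico s T).filter fun j => sik_P m0 j).card := by
  have h : insert s ((Ico (s + 1) T).filter fun j => sik_P m0 j) ⊆
      (Ico s T).filter fun j => sik_P m0 j := by
    intro j hj
    rw [mem_insert] at hj
    rcases hj with rfl | hj
    · exact mem_filter.2 ⟨mem_Ico.2 ⟨le_refl _, hT⟩, hP⟩
    · rw [mem_filter, mem_Ico] at hj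
      exact mem_filter.2 ⟨mem_Ico.2 ⟨by omega, hj.1.2⟩, hj.2⟩
  have h2 := card_le_card h
  rwa [card_insert_of_notMem (by
    intro hc
    rw [mem_filter, mem_Ico] at hc
    omega)] at h2

theorem sik_beq_t {a b : ℕ} (h : a = b) : Nat.beq a b = true := by
  rw [h]
  exact Nat.beq_refl b

theorem sik_beq_f {a b : ℕ} (h : a ≠ b) : Nat.beq a b = false := by
  rw [Bool.eq_false_iff]
  intro hc
  exact h (Nat.eq_of_beq_eq_true hc)

theorem sik_zero (m0 x c : ℕ) : simb m0 0 x c = false := rfl

theorem sik_succ (m0 n x c : ℕ) : simb m0 (n + 1) x c =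
    (bif Nat.beq (x % 3) 0 then
        (bif Nat.blt (2 * (x / 3)) m0 then true
        else bif Nat.beq (2 * (x / 3) % 3) 0 then simb m0 n (2 * (x / 3)) c
        else bif Nat.beq (2 * (x / 3)) m0 then false
        else bif Nat.beq c 0 then true
        else simb m0 n (2 * (x / 3)) (c - 1))
      else bif Nat.beq (x % 3) 1 then simb m0 n ((4 * x - 1) / 3) c
      else simb m0 n ((4 * x + 1) / 3) c) := rfl

theorem sik_main (m0 : ℕ) (h2 : m0 % 2 = 0) (h3 : m0 % 3 ≠ 0) (hle : ∀ j, m0 ≤ F^[j] m0) :
    ∀ (n s c x : ℕ),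
    x = F^[s] m0 → 1 ≤ x → (∀ j, 1 ≤ j → j ≤ s → F^[j] m0 ≠ m0) → simb m0 n x c = true →
    ∃ T, s ≤ T ∧ (∀ j, 1 ≤ j → j ≤ T → F^[j] m0 ≠ m0) ∧
      c + 1 ≤ ((Ico s T).filter fun j => sik_P m0 j).card := by
  intro n
  induction n with
  | zero =>
    intro s c x _ _ _ h
    rw [sik_zero] at h
    exact absurd h Bool.false_ne_true
  | succ n ih =>
    intro s c x hx hx1 hne h
    rw [sik_succ] at h
    have hFs : F^[s + 1] m0 = F x := by rw [Function.iterate_succ_apply', ← hx]
    have hext : ∀ y, F x = y → y ≠ m0 → ∀ j, 1 ≤ j → j ≤ s + 1 → F^[j] m0 ≠ m0 := by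
      intro y hy hym j hj1 hj2
      rcases Nat.lt_or_ge j (s + 1) with hj | hj
      · exact hne j hj1 (by omega)
      · have : j = s + 1 := by omega
        rw [this, hFs, hy]
        exact hym
    have h012 : x % 3 = 0 ∨ x % 3 = 1 ∨ x % 3 = 2 := by omega
    rcases h012 with hm | hm | hm
    · have hF : F x = 2 * (x / 3) := by
        unfold F
        rw [if_pos hm]
      have hge : m0 ≤ 2 * (x / 3) := by
        have := hle (s + 1)
        rw [hFs, hF] at this
        exact this
      have hblt : Nat.blt (2 * (x / 3)) m0 = false := by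
        rw [Bool.eq_false_iff]
        intro hc
        have hc2 : 2 * (x / 3) < m0 := by
          unfold Nat.blt at hc
          have := Nat.le_of_ble_eq_true hc
          omega
        omega
      rw [sik_beq_t hm, cond_true, hblt, cond_false] at h
      by_cases hy3 : 2 * (x / 3) % 3 = 0
      · rw [sik_beq_t hy3, cond_true] at h
        have hym : 2 * (x / 3) ≠ m0 := by
          intro hc
          rw [hc] at hy3
          exact h3 hy3
        obtain ⟨T, hT, hT1, hT2⟩ := ih (s + 1) c (2 * (x / 3)) (by rw [hFs, hF]) (by omega)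
          (hext _ hF hym) h
        exact ⟨T, by omega, hT1, hT2.trans (sik_mono m0 s T)⟩
      · rw [sik_beq_f hy3, cond_false] at h
        have hPs : sik_P m0 s := by
          refine ⟨?_, ?_⟩
          · rw [← hx]
            exact hm
          · rw [hFs, hF]
            exact hy3
        by_cases hym : 2 * (x / 3) = m0
        · rw [sik_beq_t hym, cond_true] at h
          exact absurd h Bool.false_ne_true
        · rw [sik_beq_f hym, cond_false] at h
          rcases Nat.eq_zero_or_pos c with hc | hc
          · refine ⟨s + 1, Nat.le_succ s, hext _ hF hym, ?_⟩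
            have := sik_add m0 s (s + 1) (le_refl _) hPs
            omega
          · rw [sik_beq_f (show c ≠ 0 by omega), cond_false] at h
            obtain ⟨T, hT, hT1, hT2⟩ := ih (s + 1) (c - 1) (2 * (x / 3)) (by rw [hFs, hF])
              (by omega) (hext _ hF hym) h
            refine ⟨T, by omega, hT1, ?_⟩
            have := sik_add m0 s T hT hPs
            omega
    · have hF : F x = (4 * x - 1) / 3 := by
        unfold F
        rw [if_neg (by omega), if_neg (by omega)]
      rw [sik_beq_f (show x % 3 ≠ 0 by omega), cond_false, sik_beq_t hm, cond_true] at h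
      have hym : (4 * x - 1) / 3 ≠ m0 := by omega
      obtain ⟨T, hT, hT1, hT2⟩ := ih (s + 1) c _ (by rw [hFs, hF]) (by omega)
        (hext _ hF hym) h
      exact ⟨T, by omega, hT1, hT2.trans (sik_mono m0 s T)⟩
    · have hF : F x = (4 * x + 1) / 3 := by
        unfold F
        rw [if_neg (by omega), if_pos hm]
      rw [sik_beq_f (show x % 3 ≠ 0 by omega), cond_false,
        sik_beq_f (show x % 3 ≠ 1 by omega), cond_false] at h
      have hym : (4 * x + 1) / 3 ≠ m0 := by omega
      obtain ⟨T, hT, hT1, hT2⟩ := ih (s + 1) c _ (by rw [hFs, hF]) (by omega)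
        (hext _ hF hym) h
      exact ⟨T, by omega, hT1, hT2.trans (sik_mono m0 s T)⟩

theorem SIK_thm : SIKStmt := by
  intro n m0 h1 h2 h3 hle h
  obtain ⟨T, -, hT1, hT2⟩ := sik_main m0 h2 h3 hle n 0 10 m0 rfl (by omega) (by
    intro j hj1 hj2
    omega) h
  refine ⟨T, hT1, ?_⟩
  rw [← range_eq_Ico] at hT2
  exact hT2

end Pool.STN
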