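import Pool.Agent.H78.STN.AllA
import Pool.Agent.H36.STN.SU2
import Pool.Agent.H30.STN.CHB
import Pool.Agent.H72.STN.BGK
import Pool.Agent.H14.STN.CKK
import Pool.Agent.H40.STN.ENJ
import Pool.Agent.H85.STN.FIK
import Pool.Agent.H16.STN.CW2
import Pool.Agent.H14.STN.CW3
import Pool.Agent.H26.STN.ROT
import Pool.Agent.H74.STN.LEA
import Pool.Agent.H27.STN.CNV
import Pool.Agent.H1.STN.TRI
import Pool.Agent.H41.STN.FEQ
import Pool.Agent.H78.STN.EJ0
import Pool.Agent.H78.STN.EJ1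
import Pool.Agent.H78.STN.EJ2
import Pool.Agent.H78.STN.EJ3
import Pool.Agent.H78.STN.EJ4
import Pool.Agent.H78.STN.EJ5
import Pool.Agent.H78.STN.EJ6
import Pool.Agent.H78.STN.EJ7
import Pool.Agent.H78.STN.EJ8
import Pool.Agent.H78.STN.EJ9
import Pool.Agent.H78.STN.EJ10
import Pool.Agent.H78.STN.EJ11
import Pool.Agent.H78.STN.EJ12
import Pool.Agent.H78.STN.EJ13
import Pool.Agent.H78.STN.SIK
import Pool.Agent.H85.STN.ESK

/-!
# Board STO: assembly (eleven local minima)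
-/

set_option autoImplicit false

namespace Pool.STN

theorem ejc_all : ∀ c, c < 14 → EJCStmt c := by
  intro c hc
  interval_cases c
  · exact EJC0_thm
  · exact EJC1_thm
  · exact EJC2_thm
  · exact EJC3_thm
  · exact EJC4_thm
  · exact EJC5_thm
  · exact EJC6_thm
  · exact EJC7_thm
  · exact EJC8_thm
  · exact EJC9_thm
  · exact EJC10_thm
  · exact EJC11_thm
  · exact EJC12_thm
  · exact EJC13_thm

theorem esk_all : ESKStmt := fun m0 k h2 hk hper hev hn3 hesc =>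
  esk_thm TRI_thm m0 k 10 h2 hk hper hev hn3 hesc

/-- All finite cycles of Collatz's original permutation with at most eleven local minima. -/
theorem fik_all (f : ℕ → ℕ) (hf : ∀ n : ℕ, 1 ≤ n → f (3 * n) = 2 * n ∧ f (3 * n - 1) = 4 * n - 1 ∧
    f (3 * n - 2) = 4 * n - 3) (m k : ℕ) (hm : 1 ≤ m) (hk : 1 ≤ k) (hper : f^[k] m = m)
    (hL : ((Finset.range k).filter fun j => f^[j + 1] m < f^[j] m ∧ f^[j + 1] m < f^[j + 2] m).card
      ≤ 11) :
    m ∈ ({1, 2, 3, 4, 5, 6, 7, 9, 44, 59, 79, 105, 70, 93, 62, 83, 111, 74, 99, 66} : Finset ℕ) :=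
  FIK_thm SU2_thm (CKK_thm CNV_thm CW2_thm H14.CW3_thm (BGK_thm dio_all)) CHB_thm SIK_thm ROT_thm
    esk_all (LEA_thm TRI_thm) FEQ_thm ejc_all ENJ_thm f hf m k hm hk hper hL

end Pool.STN
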