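import Pool.Agent.H78.STN.Stmts3

/-!
# Board STO, computation EJC 1
-/

set_option autoImplicit false

namespace Pool.STN

theorem ejc1_0 : blkb 500 20000 = true := by decide +kernel

theorem ejc1_1 : blkb 500 21000 = true := by decide +kernel

theorem ejc1_2 : blkb 500 22000 = true := by decide +kernel

theorem ejc1_3 : blkb 500 23000 = true := by decide +kernel

theorem ejc1_4 : blkb 500 24000 = true := by decide +kernel

theorem ejc1_5 : blkb 500 25000 = true := by decide +kernel

theorem ejc1_6 : blkb 500 26000 = true := by decide +kernel

theorem ejc1_7 : blkb 500 27000 = true := by decide +kernel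

theorem ejc1_8 : blkb 500 28000 = true := by decide +kernel

theorem ejc1_9 : blkb 500 29000 = true := by decide +kernel

theorem ejc1_10 : blkb 500 30000 = true := by decide +kernel

theorem ejc1_11 : blkb 500 31000 = true := by decide +kernel

theorem ejc1_12 : blkb 500 32000 = true := by decide +kernel

theorem ejc1_13 : blkb 500 33000 = true := by decide +kernel

theorem ejc1_14 : blkb 500 34000 = true := by decide +kernel

theorem ejc1_15 : blkb 500 35000 = true := by decide +kernel

theorem ejc1_16 : blkb 500 36000 = true := by decide +kernel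

theorem ejc1_17 : blkb 500 37000 = true := by decide +kernel

theorem ejc1_18 : blkb 500 38000 = true := by decide +kernel

theorem ejc1_19 : blkb 500 39000 = true := by decide +kernel

theorem EJC1_thm : EJCStmt 1 := by
  intro i hi h
  have e : ∀ s t : ℕ, t = s → blkb 500 t = true → blkb 500 s = true := by
    rintro s t rfl h
    exact h
  interval_cases i
  · exact e _ _ (by norm_num) ejc1_0
  · exact e _ _ (by norm_num) ejc1_1
  · exact e _ _ (by norm_num) ejc1_2
  · exact e _ _ (by norm_num) ejc1_3
  · exact e _ _ (by norm_num) ejc1_4
  · exact e _ _ (by norm_num) ejc1_5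
  · exact e _ _ (by norm_num) ejc1_6
  · exact e _ _ (by norm_num) ejc1_7
  · exact e _ _ (by norm_num) ejc1_8
  · exact e _ _ (by norm_num) ejc1_9
  · exact e _ _ (by norm_num) ejc1_10
  · exact e _ _ (by norm_num) ejc1_11
  · exact e _ _ (by norm_num) ejc1_12
  · exact e _ _ (by norm_num) ejc1_13
  · exact e _ _ (by norm_num) ejc1_14
  · exact e _ _ (by norm_num) ejc1_15
  · exact e _ _ (by norm_num) ejc1_16
  · exact e _ _ (by norm_num) ejc1_17
  · exact e _ _ (by norm_num) ejc1_18
  · exact e _ _ (by norm_num) ejc1_19

end Pool.STN
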