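import Pool.Agent.H78.STN.Stmts
import Pool.Agent.H40.COL.Thm

/-!
# Explicit bounds for the finite cycles of Collatz's permutation, from the row DIO
-/

set_option autoImplicit false

namespace Pool.STN

open Finset Pool.Agent.H40.COL

variable {f : ℕ → ℕ}

theorem exb_num : Real.exp (1 / 7) ≤ 400 / 343 := by
  have h1 : Real.exp (1 / 7) ^ 7 = Real.exp 1 := by
    rw [← Real.exp_nat_mul]
    norm_num
  have h2 : Real.exp (1 / 7) ^ 7 ≤ (400 / 343 : ℝ) ^ 7 := by
    rw [h1]
    refine le_trans Real.exp_one_lt_d9.le ?_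
    norm_num
  exact le_of_pow_le_pow_left₀ (by norm_num) (by norm_num) h2

theorem exb_pow (n : ℕ) : (343 / 400 : ℝ) ^ n ≤ Real.exp (-(n / 7 : ℝ)) := by
  have h1 : Real.exp (-(n / 7 : ℝ)) = (Real.exp (1 / 7))⁻¹ ^ n := by
    rw [← Real.exp_neg, ← Real.exp_nat_mul]
    congr 1
    ring
  rw [h1]
  refine pow_le_pow_left₀ (by norm_num) ?_ n
  have h2 : (343 / 400 : ℝ) = (400 / 343 : ℝ)⁻¹ := by norm_num
  rw [h2]
  exact inv_anti₀ (Real.exp_pos _) exb_num

theorem exb_e7 : (1000 : ℝ) ≤ Real.exp 7 := by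
  have h1 : Real.exp 7 = Real.exp 1 ^ 7 := by
    rw [← Real.exp_nat_mul]
    norm_num
  rw [h1]
  have h2 : (2.71 : ℝ) ≤ Real.exp 1 := by
    have := Real.exp_one_gt_d9
    linarith
  refine le_trans ?_ (pow_le_pow_left₀ (by norm_num) h2 7)
  norm_num

theorem exb_e15 : (2965950 : ℝ) ≤ Real.exp 15 := by
  have h1 : Real.exp 15 = Real.exp 1 ^ 15 := by
    rw [← Real.exp_nat_mul]
    norm_num
  rw [h1]
  have h2 : (2.71 : ℝ) ≤ Real.exp 1 := by
    have := Real.exp_one_gt_d9
    linarith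
  refine le_trans ?_ (pow_le_pow_left₀ (by norm_num) h2 15)
  norm_num

/-- the least element of a finite cycle of length `k` is at most a power of `k` -/
theorem exb_least (hD : DIOStmt) (hf : IsF f) {m k m0 : ℕ} (hk : 1 ≤ k) (hper : f^[k] m = m)
    (hm0 : 2 ≤ m0) (h2 : ∀ j, m0 ≤ f^[j] m) :
    Real.log m0 ≤ 757 + 106 * Real.log k := by
  obtain ⟨U, hU, hE⟩ := cyc_eq hf hper hm0 h2
  have hkr : (1 : ℝ) ≤ k := by exact_mod_cast hk
  have hk0 : (0 : ℝ) < k := by linarith
  have hm0r : (0 : ℝ) < m0 := by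
    have : 0 < m0 := by omega
    exact_mod_cast this
  set l : ℝ := Real.log (756 * k) with hl
  have hl7 : l ≤ 7 + Real.log k := by
    rw [hl, Real.log_mul (by norm_num) hk0.ne']
    have h1 : Real.log 756 ≤ 7 := by
      rw [Real.log_le_iff_le_exp (by norm_num)]
      exact le_trans (by norm_num) exb_e7
    linarith
  have hlpos : 0 < l := by
    rw [hl]
    exact Real.log_pos (by nlinarith)
  set n : ℕ := ⌈7 * l⌉₊ with hn
  have hn1 : 1 ≤ n := by
    have : 0 < n := Nat.ceil_pos.2 (by positivity)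
    omega
  have hnl : 7 * l ≤ n := Nat.le_ceil _
  have hnu : (n : ℝ) ≤ 7 * l + 1 := (Nat.ceil_lt_add_one (by positivity)).le
  have hUk : (U : ℝ) ≤ k := by exact_mod_cast hU
  have hU0 : (0 : ℝ) ≤ U := Nat.cast_nonneg _
  have hne : ((k : ℤ) - 2 * U) ≠ 0 ∨ ((k : ℤ) - U) ≠ 0 := by omega
  have h3 := hD ((k : ℤ) - 2 * U) ((k : ℤ) - U) n hne hn1
  have hL : (((k : ℤ) - 2 * U : ℤ) : ℝ) * Real.log (4 / 3) +
      (((k : ℤ) - U : ℤ) : ℝ) * Real.log (9 / 8) =
      -(((k + U : ℕ) : ℝ) * Real.log 2 - (k : ℝ) * Real.log 3) := by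
    have e1 : Real.log (4 / 3) = 2 * Real.log 2 - Real.log 3 := by
      rw [Real.log_div (by norm_num) (by norm_num), show (4 : ℝ) = 2 ^ 2 by norm_num,
        Real.log_pow]
      norm_num
    have e2 : Real.log (9 / 8) = 2 * Real.log 3 - 3 * Real.log 2 := by
      rw [Real.log_div (by norm_num) (by norm_num), show (9 : ℝ) = 3 ^ 2 by norm_num,
        show (8 : ℝ) = 2 ^ 3 by norm_num, Real.log_pow, Real.log_pow]
      norm_num
    rw [e1, e2]
    push_cast
    ring
  rw [hL, abs_neg] at h3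
  have hu : |(((k : ℤ) - 2 * U : ℤ) : ℝ)| ≤ k := by
    push_cast
    rw [abs_le]
    constructor <;> linarith
  have hv : |(((k : ℤ) - U : ℤ) : ℝ)| ≤ k := by
    push_cast
    rw [abs_le]
    constructor <;> linarith
  have hp0 : (0 : ℝ) ≤ (343 / 400 : ℝ) ^ n := by positivity
  have h4 : (343 / 400 : ℝ) ^ n ≤ 1 / (756 * k) := by
    refine (exb_pow n).trans ?_
    have h5 : -((n : ℝ) / 7) ≤ -l := by linarith
    refine (Real.exp_le_exp.2 h5).trans ?_
    rw [Real.exp_neg, hl, Real.exp_log (by positivity)]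
    rw [one_div]
  have h5 : 14 * (18 * |(((k : ℤ) - 2 * U : ℤ) : ℝ)| + 9 * |(((k : ℤ) - U : ℤ) : ℝ)|) *
      (343 / 400) ^ n ≤ 1 / 2 := by
    have h6 : 14 * (18 * |(((k : ℤ) - 2 * U : ℤ) : ℝ)| + 9 * |(((k : ℤ) - U : ℤ) : ℝ)|) ≤
        378 * k := by linarith
    calc 14 * (18 * |(((k : ℤ) - 2 * U : ℤ) : ℝ)| + 9 * |(((k : ℤ) - U : ℤ) : ℝ)|) *
        (343 / 400) ^ n ≤ 378 * k * (1 / (756 * k)) :=
          mul_le_mul h6 h4 hp0 (by positivity)
      _ = 1 / 2 := by
        field_simp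
        norm_num
  have h6 : (1 : ℝ) / 2 ≤ 601 * 2965950 ^ n * (k / (2 * (m0 : ℝ))) := by
    have h7 : 601 * 2965950 ^ n * |((k + U : ℕ) : ℝ) * Real.log 2 - (k : ℝ) * Real.log 3| ≤
        601 * 2965950 ^ n * (k / (2 * (m0 : ℝ))) :=
      mul_le_mul_of_nonneg_left hE (by positivity)
    linarith
  have h7 : (m0 : ℝ) ≤ 601 * 2965950 ^ n * k := by
    have h8 : 601 * 2965950 ^ n * (k / (2 * (m0 : ℝ))) = 601 * 2965950 ^ n * k / (2 * (m0 : ℝ)) := by
      ring
    rw [h8, le_div_iff₀ (by positivity)] at h6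
    linarith
  have h8 : Real.log m0 ≤ Real.log (601 * 2965950 ^ n * k) := Real.log_le_log hm0r h7
  rw [Real.log_mul (by positivity) hk0.ne', Real.log_mul (by norm_num) (by positivity),
    Real.log_pow] at h8
  have h9 : Real.log 601 ≤ 7 := by
    rw [Real.log_le_iff_le_exp (by norm_num)]
    exact le_trans (by norm_num) exb_e7
  have h10 : Real.log 2965950 ≤ 15 := by
    rw [Real.log_le_iff_le_exp (by norm_num)]
    exact exb_e15
  have h11 : (n : ℝ) * Real.log 2965950 ≤ (7 * l + 1) * 15 :=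
    mul_le_mul hnu h10 (Real.log_nonneg (by norm_num)) (by positivity)
  linarith

/-- the numerical part -/
theorem exb_fin {k K : ℕ} (hK : 1 ≤ K) (hk : 1 ≤ k)
    (h : (k : ℝ) ≤ 12 * 3 ^ K * (757 + 106 * Real.log k)) :
    (k : ℝ) ≤ 25000 * K * 3 ^ K ∧
      (k : ℝ) * Real.log 2 + (757 + 106 * Real.log k) ≤ 25000 * K * 3 ^ K := by
  have hKr : (1 : ℝ) ≤ K := by exact_mod_cast hK
  have hkr : (1 : ℝ) ≤ k := by exact_mod_cast hk
  have h3 : (0 : ℝ) < 3 ^ K := by positivity
  have h31 : (1 : ℝ) ≤ 3 ^ K := one_le_pow₀ (by norm_num)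
  have hT : (0 : ℝ) < 25000 * K * 3 ^ K := by positivity
  have hlT : Real.log (25000 * K * 3 ^ K) ≤ 9.13 + 2.1 * K := by
    rw [Real.log_mul (by positivity) (by positivity), Real.log_mul (by norm_num) (by positivity),
      Real.log_pow]
    have e1 : Real.log K ≤ K - 1 := Real.log_le_sub_one_of_pos (by linarith)
    have e2 : Real.log 3 ≤ 1.1 := by
      rw [Real.log_le_iff_le_exp (by norm_num)]
      have h1 : Real.exp 1.1 = Real.exp 1 * Real.exp 0.1 := by
        rw [← Real.exp_add]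
        norm_num
      rw [h1]
      have h2 := Real.exp_one_gt_d9
      have h4 : (0.1 : ℝ) + 1 + 0.1 ^ 2 / 2 ≤ Real.exp 0.1 := by
        have := Real.quadratic_le_exp_of_nonneg (show (0 : ℝ) ≤ 0.1 by norm_num)
        linarith
      nlinarith
    have e3 : Real.log 25000 ≤ 10.13 := by
      rw [Real.log_le_iff_le_exp (by norm_num)]
      have h1 : Real.exp 10.13 = Real.exp 1 ^ 10 * Real.exp 0.13 := by
        rw [← Real.exp_nat_mul, ← Real.exp_add]
        norm_num
      rw [h1]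
      have h2 : (2.7182818 : ℝ) ^ 10 ≤ Real.exp 1 ^ 10 :=
        pow_le_pow_left₀ (by norm_num) (by linarith [Real.exp_one_gt_d9]) 10
      have h4 : (0.13 : ℝ) + 1 + 0.13 ^ 2 / 2 ≤ Real.exp 0.13 := by
        have := Real.quadratic_le_exp_of_nonneg (show (0 : ℝ) ≤ 0.13 by norm_num)
        linarith
      have h5 : (25000 : ℝ) ≤ 2.7182818 ^ 10 * (0.13 + 1 + 0.13 ^ 2 / 2) := by norm_num
      refine h5.trans (mul_le_mul h2 h4 (by norm_num) (by positivity))
    nlinarith
  have h1 : (k : ℝ) ≤ 25000 * K * 3 ^ K := by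
    by_contra hcon
    rw [not_le] at hcon
    have h4 : Real.log k ≤ Real.log (25000 * K * 3 ^ K) + (k / (25000 * K * 3 ^ K) - 1) := by
      have h5 := Real.log_le_sub_one_of_pos (show (0 : ℝ) < k / (25000 * K * 3 ^ K) by positivity)
      rw [Real.log_div (by positivity) hT.ne'] at h5
      linarith
    have h5 : 3 ^ K * (k / (25000 * K * 3 ^ K)) ≤ (k : ℝ) / 25000 := by
      have e : (3 : ℝ) ^ K * (k / (25000 * K * 3 ^ K)) = k / (25000 * K) := by
        field_simp
      rw [e]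
      refine div_le_div_of_nonneg_left (by linarith) (by norm_num) (by nlinarith)
    have h6 : 12 * 3 ^ K * (757 + 106 * Real.log k) ≤
        3 ^ K * (7812 + 1272 * (9.13 + 2.1 * K)) + 1272 * (k / 25000) := by
      have h7 : 106 * Real.log k ≤ 106 * ((9.13 + 2.1 * K) + (k / (25000 * K * 3 ^ K) - 1)) := by
        linarith
      have h8 : 12 * 3 ^ K * (757 + 106 * Real.log k) ≤
          12 * 3 ^ K * (757 + 106 * ((9.13 + 2.1 * K) + (k / (25000 * K * 3 ^ K) - 1))) :=
        mul_le_mul_of_nonneg_left (by linarith) (by positivity)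
      have h9 : 12 * 3 ^ K * (757 + 106 * ((9.13 + 2.1 * K) + (k / (25000 * K * 3 ^ K) - 1))) =
          3 ^ K * (7812 + 1272 * (9.13 + 2.1 * K)) +
            1272 * (3 ^ K * (k / (25000 * K * 3 ^ K)) : ℝ) := by ring
      rw [h9] at h8
      linarith
    have h7 : (3 : ℝ) ^ K * (7812 + 1272 * (9.13 + 2.1 * K)) ≤ 3 ^ K * (23000 * K) :=
      mul_le_mul_of_nonneg_left (by nlinarith) h3.le
    have h8 : (3 : ℝ) ^ K * (23000 * K) = 23000 / 25000 * (25000 * K * 3 ^ K) := by ring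
    nlinarith
  refine ⟨h1, ?_⟩
  have h4 : Real.log k ≤ 9.13 + 2.1 * K :=
    (Real.log_le_log (by linarith) h1).trans hlT
  have h5 : (k : ℝ) * Real.log 2 ≤ 25000 * K * 3 ^ K * 0.7 := by
    have h6 : Real.log 2 ≤ 0.7 := by linarith [Real.log_two_lt_d9]
    exact mul_le_mul h1 h6 (Real.log_nonneg (by norm_num)) hT.le
  have h6 : 757 + 106 * (9.13 + 2.1 * (K : ℝ)) ≤ 2000 * K := by nlinarith
  have h7 : (2000 : ℝ) * K ≤ 25000 * K * 3 ^ K * 0.3 := by nlinarith
  linarith

open Classical in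
/-- **Explicit bounds for the finite cycles.** -/
theorem exb_thm (hD : DIOStmt) (hf : IsF f) {m k : ℕ} (hm : 2 ≤ m) (hk : 1 ≤ k)
    (hper : f^[k] m = m) :
    (∃ j, Real.log (f^[j] m) ≤ 757 + 106 * Real.log k) ∧
    ∀ K : ℕ, 1 ≤ K → ((range k).filter fun j => f^[j + 1] m < f^[j] m ∧
      f^[j + 1] m < f^[j + 2] m).card ≤ K →
      (k : ℝ) ≤ 25000 * K * 3 ^ K ∧ ∀ i, Real.log (f^[i] m) ≤ 25000 * K * 3 ^ K := by
  obtain ⟨j, hj⟩ := exists_min f m
  have h2 : ∀ i, 2 ≤ f^[i] m := by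
    intro i
    by_contra hlt
    have h3 : f^[i] m = 1 := by
      have := hf.iter_pos (x := m) (by omega) i
      omega
    have hf1 : f 1 = 1 := by have := hf.h2 1 le_rfl; simpa using this
    have h4 : ∀ t, f^[t] 1 = 1 := fun t => Function.iterate_fixed hf1 t
    have h5 : f^[k * (i + 1)] m = m := Function.IsPeriodicPt.const_mul hper (i + 1) |> fun h => by
      have := h
      rwa [mul_comm] at this
    have h6 : k * (i + 1) = (k * (i + 1) - i) + i := by
      have : i ≤ k * (i + 1) := by nlinarith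
      omega
    rw [h6, Function.iterate_add_apply, h3, h4] at h5
    omega
  have hL := exb_least hD hf hk hper (h2 j) hj
  refine ⟨⟨j, hL⟩, fun K hK hc => ?_⟩
  have h3 := cyc_len hf (j0 := j) hk hper h2
  have hl : (0 : ℝ) ≤ Real.log (f^[j] m) := Real.log_natCast_nonneg _
  have h4 : (k : ℝ) ≤ 12 * 3 ^ K * (757 + 106 * Real.log k) := by
    refine h3.trans ?_
    refine mul_le_mul ?_ hL hl (by positivity)
    exact mul_le_mul_of_nonneg_left (pow_le_pow_right₀ (by norm_num) hc) (by norm_num)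
  obtain ⟨h5, h6⟩ := exb_fin hK hk h4
  refine ⟨h5, fun i => ?_⟩
  have hmod : f^[i] m ≤ 2 ^ k * f^[j] m := by
    have e1 : f^[i % k] m = f^[i] m := Function.IsPeriodicPt.iterate_mod_apply hper i
    have e2 : f^[j % k] m = f^[j] m := Function.IsPeriodicPt.iterate_mod_apply hper j
    have hlt1 : i % k < k := Nat.mod_lt _ (by omega)
    have hlt2 : j % k < k := Nat.mod_lt _ (by omega)
    have hjp : 1 ≤ f^[j % k] m := hf.iter_pos (by omega) _
    rw [← e1, ← e2]
    rcases le_total (j % k) (i % k) with hle | hle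
    · have e3 : f^[i % k] m = f^[i % k - j % k] (f^[j % k] m) := by
        rw [← Function.iterate_add_apply]
        congr 1
        omega
      rw [e3]
      refine (hf.iter_le hjp _).trans ?_
      exact Nat.mul_le_mul_right _ (Nat.pow_le_pow_right (by norm_num) (by omega))
    · have e3 : f^[i % k] m = f^[i % k + k - j % k] (f^[j % k] m) := by
        rw [← Function.iterate_add_apply, show i % k + k - j % k + j % k = i % k + k by omega,
          Function.iterate_add_apply, hper]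
      rw [e3]
      refine (hf.iter_le hjp _).trans ?_
      exact Nat.mul_le_mul_right _ (Nat.pow_le_pow_right (by norm_num) (by omega))
  have hip : (0 : ℝ) < (f^[i] m : ℕ) := by
    have : 0 < f^[i] m := hf.iter_pos (by omega) i
    exact_mod_cast this
  have hjp : (0 : ℝ) < (f^[j] m : ℕ) := by
    have : 0 < f^[j] m := hf.iter_pos (by omega) j
    exact_mod_cast this
  have h7 : Real.log (f^[i] m) ≤ (k : ℝ) * Real.log 2 + Real.log (f^[j] m) := by
    rw [← Real.log_pow, ← Real.log_mul (by positivity) hjp.ne']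
    refine Real.log_le_log hip ?_
    exact_mod_cast hmod
  linarith

end Pool.STN
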