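import Mathlib

/-!
# Board STN: finite cycles of Collatz's permutation with one local minimum (MP_9010c3)

THEOREM.  Let `f (3 n) = 2 n`, `f (3 n - 1) = 4 n - 1`, `f (3 n - 2) = 4 n - 3`.  If `f^[k] m = m` and at
most one index `j < k` is a local minimum of the orbit, then `m` lies on one of the three known cycles
`(1)`, `(2 3)`, `(4 5 7 9 6)`.  (The analogue of Steiner's theorem for the `3 x + 1` map.)

PROOF.  Such a cycle has `a` ascending steps from `2 ^ b t` to `3 ^ b t` and then `b` descending ones, and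
`|3 ^ (a + b) - 2 ^ (2 a + b)| t < 4 ^ a`.  So the linear form `Λ = (b - a) log (4 / 3) + b log (9 / 8)` is
at most `2 / 2 ^ b`.  The integrals of `P ^ n x ^ (- 3 n - 1 + i)`, `i = 0, 1, 2`, over `[6, 8]` and
`[8, 9]`, `P = (x - 6) ^ 3 (x - 8) ^ 2 (x - 9)`, are `c log (4 / 3) + N₁` and `c log (9 / 8) + N₂` with the
same integer `c`, and give a lower bound for `|Λ|` (DIO), a contradiction for `a + b ≥ 15601`.  For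
`a + b < 15601` the convergents `1054 / 665`, `24727 / 15601` of `log 3 / log 2` are used.
All constants have been checked numerically.
-/

set_option autoImplicit false

open Polynomial

namespace Pool.STN

/-! ## Part 1: the approximations -/

/-- `P = (x - 6) ^ 3 (x - 8) ^ 2 (x - 9)` -/
noncomputable def Pz : ℤ[X] := (X - C 6) ^ 3 * (X - C 8) ^ 2 * (X - C 9)

/-- the same with rational coefficients -/
noncomputable def Pq : ℚ[X] := (X - C 6) ^ 3 * (X - C 8) ^ 2 * (X - C 9)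

/-- the value of `- u ∫ … ` on a monomial: an antiderivative of `x ^ (m - 1)`, evaluated at the three points;
for `m = 0` it is `0` (division by zero) -/
noncomputable def ph (u v m : ℤ) : ℚ :=
  (-(u : ℚ) * (6 : ℚ) ^ m + ((u : ℚ) - v) * (8 : ℚ) ^ m + (v : ℚ) * (9 : ℚ) ^ m) / (m : ℚ)

/-- the rational part of `u ∫_6^8 A x ^ s + v ∫_8^9 A x ^ s` -/
noncomputable def Nn (u v : ℤ) (A : ℚ[X]) (s : ℤ) : ℚ :=
  A.sum fun j c => c * ph u v ((j : ℤ) + s + 1)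

/-- the integrand -/
noncomputable def gg (n i : ℕ) (x : ℝ) : ℝ :=
  ((x - 6) ^ 3 * (x - 8) ^ 2 * (x - 9)) ^ n * x ^ (-3 * (n : ℤ) - 1 + i)

/-- PZQ (20). `Pq ^ n` is `Pz ^ n` with rational coefficients; degree. -/
def PZQStmt : Prop :=
  ∀ n j : ℕ, (Pq ^ n).coeff j = (((Pz ^ n).coeff j : ℤ) : ℚ) ∧ (6 * n < j → (Pz ^ n).coeff j = 0)

/-- INT (60). Proof: `P (6 y) = 2592 (y - 1) ^ 3 (3 y - 4) ^ 2 (2 y - 3)`,
`P (8 y) = 512 (4 y - 3) ^ 3 (y - 1) ^ 2 (8 y - 9)`, `P (9 y) = 243 (3 y - 2) ^ 3 (9 y - 8) ^ 2 (y - 1)`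
(`Polynomial.comp`, `comp_C_mul_X_coeff`), `6 ^ 3 ∣ 2592`, `8 ^ 3 = 512`, `9 ^ 3 = 3 * 243`. -/
def INTStmt : Prop :=
  ∀ (n j : ℕ) (e : ℤ), e = 6 ∨ e = 8 ∨ e = 9 → e ^ (3 * n) ∣ 3 ^ n * (Pz ^ n).coeff j * e ^ j

/-- DIV (80, needs PZQ INT). Denominators.  Proof: the term number `j ≤ 6 n` is
`c_j (- u 6 ^ m + (u - v) 8 ^ m + v 9 ^ m) / m`, `m = j - 3 n + i`, `|m| ≤ 3 n + 2`; `3 ^ n c_j e ^ m =
e ^ i (3 ^ n c_j e ^ j / e ^ (3 n))` is an integer (INT) and `m` divides `lcmUpto (3 n + 2)` if `m ≠ 0`. -/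
def DIVStmt : Prop :=
  ∀ (n i : ℕ) (u v : ℤ), 1 ≤ n → i ≤ 2 → ∃ z : ℤ,
    ((3 ^ n * Nat.lcmUpto (3 * n + 2) : ℕ) : ℚ) * Nn u v (Pq ^ n) (-3 * n - 1 + i) = z

/-- IVL (100, needs PZQ). The integrals.  Proof: expand `P ^ n` (`Polynomial.sum` over the coefficients);
`∫ x ^ (m - 1) = (e' ^ m - e ^ m) / m` for `m ≠ 0` (`integral_zpow`) and `log (e' / e)` for `m = 0`
(`integral_inv_of_pos`); `m = j - 3 n + i` is `0` for `j = 3 n - i`. -/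
def IVLStmt : Prop :=
  ∀ (n i : ℕ) (u v : ℤ), 1 ≤ n → i ≤ 2 →
    (u : ℝ) * (∫ x in (6 : ℝ)..8, gg n i x) + (v : ℝ) * (∫ x in (8 : ℝ)..9, gg n i x) =
      (((Pz ^ n).coeff (3 * n - i) : ℤ) : ℝ) *
        ((u : ℝ) * Real.log (4 / 3) + (v : ℝ) * Real.log (9 / 8)) +
      ((Nn u v (Pq ^ n) (-3 * n - 1 + i) : ℚ) : ℝ)

/-- PBD (40). `150 |P| ≤ x ^ 3`; the maximum of `150 |P| / x ^ 3` is `0.8751` (near `6.9`).  Proof: for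
`x ∈ [s, s']` use `(x - 6) ^ 3 ≤ (s' - 6) ^ 3`, `(x - 8) ^ 2 ≤ …`, `x ≥ s` on small intervals, or a
polynomial certificate. -/
def PBDStmt : Prop :=
  ∀ x : ℝ, 6 ≤ x → x ≤ 9 → 150 * |(x - 6) ^ 3 * (x - 8) ^ 2 * (x - 9)| ≤ x ^ 3

/-- JBD (40, needs PBD). -/
def JBDStmt : Prop :=
  ∀ n i : ℕ, i ≤ 2 → |∫ x in (6 : ℝ)..8, gg n i x| ≤ 18 * (1 / 150) ^ n ∧
    |∫ x in (8 : ℝ)..9, gg n i x| ≤ 9 * (1 / 150) ^ n

/-- CBD (50). Proof: for an integer polynomial `A` let `|A| = ∑ |a_j| 7 ^ j`; `|A B| ≤ |A| |B|`,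
`|x - 6| = 13`, `|x - 8| = 15`, `|x - 9| = 16`; `13 ^ 3 * 15 ^ 2 * 16 = 7909200`. -/
def CBDStmt : Prop := ∀ n j : ℕ, |(Pz ^ n).coeff j| * 7 ^ j ≤ 7909200 ^ n

/-! ## Part 2: one of three consecutive forms is not zero -/

/-- NAD (40). Linearity and shift. -/
def NADStmt : Prop :=
  (∀ (u v : ℤ) (A B : ℚ[X]) (s : ℤ), Nn u v (A + B) s = Nn u v A s + Nn u v B s) ∧
  (∀ (u v : ℤ) (A : ℚ[X]) (c : ℚ) (s : ℤ), Nn u v (C c * A) s = c * Nn u v A s) ∧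
  ∀ (u v : ℤ) (A : ℚ[X]) (d : ℕ) (s : ℤ), Nn u v (X ^ d * A) s = Nn u v A (s + d)

/-- NLN (50, needs NAD). Exact forms `(A x ^ s)'`.  Proof: by linearity `A = X ^ j`: both sides are
`- u 6 ^ (j + s) + (u - v) 8 ^ (j + s) + v 9 ^ (j + s)` (`0` if `j + s = 0`). -/
def NLNStmt : Prop :=
  ∀ (u v : ℤ) (A : ℚ[X]) (s : ℤ), Nn u v (X * derivative A + C (s : ℚ) * A) (s - 1) =
    -(u : ℚ) * (A.eval 6 * 6 ^ s) + ((u : ℚ) - v) * (A.eval 8 * 8 ^ s) + (v : ℚ) * (A.eval 9 * 9 ^ s)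

/-- NRC (60, needs NAD NLN). Proof: NLN for `A = Pq ^ n * R`, `R = (x - 6) (x - 8) (x - 9)`:
`x A' + s A = Pq ^ n w`, `w = x (n S + R') + s R`, `S = 3 (x - 8) (x - 9) + 2 (x - 6) (x - 9) +
(x - 6) (x - 8)` (`P' R = P S`); `w` has degree three with leading coefficient `6 n + 3 + s`, and `A`
vanishes at the three points. -/
def NRCStmt : Prop :=
  ∀ (n : ℕ) (s : ℤ), ∃ w0 w1 w2 : ℚ, ∀ u v : ℤ,
    w0 * Nn u v (Pq ^ n) (s - 1) + w1 * Nn u v (Pq ^ n) s + w2 * Nn u v (Pq ^ n) (s + 1) +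
      (6 * (n : ℚ) + 3 + s) * Nn u v (Pq ^ n) (s + 2) = 0

/-- NUP (40, needs NRC). Proof: induction on `s + 3 n + 1`: for `s ≥ - 3 n + 2` use NRC at `s - 2`, where
`6 n + 3 + (s - 2) > 0`. -/
def NUPStmt : Prop :=
  ∀ (n : ℕ) (u v : ℤ), 1 ≤ n → (∀ i : ℕ, i ≤ 2 → Nn u v (Pq ^ n) (-3 * n - 1 + i) = 0) →
    ∀ s : ℤ, -3 * n - 1 ≤ s → Nn u v (Pq ^ n) s = 0

/-- ITP (80). Interpolation.  Proof: if `v ≠ 0`: `(x - 6) ^ (3 n + 1) (x - 8) ^ (2 n + 1)` and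
`(x - 9) ^ (n + 1)` are coprime, `a (x - 6) ^ (3 n + 1) (x - 8) ^ (2 n + 1) + b (x - 9) ^ (n + 1) = 1`; `H` is
the first summand: it vanishes at `6`, `8` and is `1` at `9`, and `H'` is divisible by
`(x - 6) ^ (3 n) (x - 8) ^ (2 n)` and by `(x - 9) ^ n`.  If `v = 0` the same with `6` and `9` exchanged. -/
def ITPStmt : Prop :=
  ∀ (n : ℕ) (u v : ℤ), u ≠ 0 ∨ v ≠ 0 → ∃ H q : ℚ[X], derivative H = Pq ^ n * q ∧
    -(u : ℚ) * H.eval 6 + ((u : ℚ) - v) * H.eval 8 + (v : ℚ) * H.eval 9 ≠ 0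

/-- NZR (50, needs NAD NLN NUP ITP). Proof: otherwise `Nn (Pq ^ n) s = 0` for all `s ≥ 0` (NUP), so
`Nn (Pq ^ n * q) 0 = 0` for all polynomials `q` (NAD); but NLN with `s = 0` and `A = H` of ITP, and the shift
`Nn (X * H') (-1) = Nn H' 0`, give a value which is not zero. -/
def NZRStmt : Prop :=
  ∀ (n : ℕ) (u v : ℤ), 1 ≤ n → u ≠ 0 ∨ v ≠ 0 → ∃ i : ℕ, i ≤ 2 ∧
    Nn u v (Pq ^ n) (-3 * n - 1 + i) ≠ 0

/-! ## Part 3: the least common multiple -/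

/-- MUL (100). Proof: prime by prime (`Nat.factorization_lcmUpto`, Legendre's formula, compare
`Nat.Prime.multiplicity_choose`): for `n < p ^ e ≤ 6 n`,
`⌊6 n / p ^ e⌋ - ⌊3 n / p ^ e⌋ - ⌊2 n / p ^ e⌋ - ⌊n / p ^ e⌋ ≥ 1`, and `≥ 0` for all `e`. -/
def MULStmt : Prop :=
  ∀ n : ℕ, Nat.lcmUpto (6 * n) * ((3 * n).factorial * (2 * n).factorial * n.factorial) ∣
    Nat.lcmUpto n * (6 * n).factorial

/-- MLB (40). Proof: a term of the expansion of `(1/2 + 1/3 + 1/6) ^ (6 n)`; or induction on `n`, or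
`choose (6 n) (3 n) ≤ 64 ^ n` and `choose (3 n) n * 4 ^ n ≤ 27 ^ n`. -/
def MLBStmt : Prop :=
  ∀ n : ℕ, (6 * n).factorial ≤ 432 ^ n * ((3 * n).factorial * (2 * n).factorial * n.factorial)

/-- LC0 (40). Computation: recursion `l (n + 1) = lcm (l n) (n + 1)` in an auxiliary list or function and
`decide` / `rfl` (numbers of 2000 bits; split if necessary). -/
def LC0Stmt : Prop := ∀ N : ℕ, N < 1200 → Nat.lcmUpto N * 2 ^ N ≤ 7 ^ N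

/-- LCB (60, needs MUL MLB LC0). Proof: strong induction; `N = 6 n + r`, `n ≥ 200`:
`lcmUpto N ≤ lcmUpto (6 n) (6 n + 5) ^ 5 ≤ lcmUpto n 432 ^ n (6 n + 5) ^ 5` and
`(6 n + 5) ^ 5 432 ^ n 2 ^ (5 n) ≤ 7 ^ (5 n)` for `n ≥ 179` (induction from `n = 200`). -/
def LCBStmt : Prop := ∀ N : ℕ, Nat.lcmUpto N * 2 ^ N ≤ 7 ^ N

/-! ## Part 4: the linear form -/

/-- DIO (80, needs DIV IVL JBD CBD NZR LCB). Proof: take `i` from NZR; with `D = 3 ^ n lcmUpto (3 n + 2)`,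
`1 ≤ |D N| ≤ D |c| |Λ| + D (|u| |∫_6^8| + |v| |∫_8^9|)`; `D ≤ 3 ^ n (7 / 2) ^ (3 n + 2)`,
`|c| ≤ 7909200 ^ n / 7 ^ (3 n - i)`; `3 (7/2)^3 7909200 / 343 = 2965950`, `(49/4) 49 ≤ 601`,
`3 (7/2)^3 / 150 = 343 / 400`. -/
def DIOStmt : Prop :=
  ∀ (u v : ℤ) (n : ℕ), u ≠ 0 ∨ v ≠ 0 → 1 ≤ n →
    (1 : ℝ) ≤ 601 * 2965950 ^ n * |(u : ℝ) * Real.log (4 / 3) + (v : ℝ) * Real.log (9 / 8)| +
      14 * (18 * |(u : ℝ)| + 9 * |(v : ℝ)|) * (343 / 400) ^ n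

/-- LLW (60). Proof: `Λ = log (3 ^ (a + b) / 2 ^ (2 a + b))` and the quotient differs from `1` by less than
`4 ^ a / 2 ^ (2 a + b) = 1 / 2 ^ b ≤ 1 / 2`.  The second: `|Λ| ≤ 1` and `0.41503 < 2 - log 3 / log 2`. -/
def LLWStmt : Prop :=
  ∀ a b : ℕ, 1 ≤ a → 1 ≤ b → |(3 : ℤ) ^ (a + b) - 2 ^ (2 * a + b)| < 4 ^ a →
    |((b : ℝ) - a) * Real.log (4 / 3) + b * Real.log (9 / 8)| ≤ 2 / 2 ^ b ∧
    ((b : ℝ) - a) * Real.log (4 / 3) + b * Real.log (9 / 8) =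
      ((a + b : ℕ) : ℝ) * Real.log 3 - ((2 * a + b : ℕ) : ℝ) * Real.log 2 ∧
    41 * (a + b) ≤ 100 * b + 200

/-- BIG (80, needs DIO LLW). Proof: let `k = a + b ≥ 15601`, `n = k / 60 ≥ 260`, `u = b - a`, `v = b`,
`|u|, |v| ≤ k`.  `2965950 ^ n ≤ 2 ^ (21.6 n) ≤ 2 ^ (0.36 k)` (`2965950 ^ 5 ≤ 2 ^ 108`), `b ≥ 0.41 k - 2`, so the
first term is `≤ 1 / 4`; the second is at most `14 * 27 * (60 n + 60) (343 / 400) ^ n ≤ 1 / 4`, by induction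
from `n = 260`. -/
def BIGStmt : Prop :=
  ∀ a b : ℕ, 1 ≤ a → 1 ≤ b → |(3 : ℤ) ^ (a + b) - 2 ^ (2 * a + b)| < 4 ^ a → a + b < 15601

/-- CNV (80). The minimum is `|665 log 3 - 1054 log 2| = 0.0000436…`.  Proof: `665 * 24727 - 1054 * 15601 = 1`,
so `(k, y) = x (665, 1054) + z (15601, 24727)` with integers `x`, `z`; if `z = 0` clear; otherwise `x`, `z`
have opposite signs (`0 < k < 15601`), and `665 log 3 - 1054 log 2 < 0 < 15601 log 3 - 24727 log 2` (or the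
opposite signs) by `3 ^ 665` versus `2 ^ 1054` etc. (`norm_num` / `decide` on integers);
`2 ^ 1054 * 100000 ≤ 3 ^ 665 * 99996` or the like gives the value. -/
def CNVStmt : Prop :=
  ∀ k y : ℕ, 1 ≤ k → k < 15601 → 4 / 100000 ≤ |(k : ℝ) * Real.log 3 - (y : ℝ) * Real.log 2|

/-- MID (20, needs CNV LLW). Proof: `2 / 2 ^ b ≥ 4 / 100000`, so `b ≤ 15`, `41 k ≤ 1700`. -/
def MIDStmt : Prop :=
  ∀ a b : ℕ, 1 ≤ a → 1 ≤ b → |(3 : ℤ) ^ (a + b) - 2 ^ (2 * a + b)| < 4 ^ a → a + b < 15601 →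
    a + b ≤ 41

/-- SML (20). `decide` over `a, b ≤ 41` (or `interval_cases`). -/
def SMLStmt : Prop :=
  ∀ a b : ℕ, 1 ≤ a → 1 ≤ b → a + b ≤ 41 → |(3 : ℤ) ^ (a + b) - 2 ^ (2 * a + b)| < 4 ^ a →
    (a, b) = (1, 1) ∨ (a, b) = (2, 1) ∨ (a, b) = (3, 1) ∨ (a, b) = (3, 2) ∨ (a, b) = (4, 3) ∨
      (a, b) = (7, 5)

/-! ## Part 5: the cycles -/

/-- Collatz's map -/
def F (n : ℕ) : ℕ :=
  if n % 3 = 0 then 2 * (n / 3) else if n % 3 = 2 then (4 * n + 1) / 3 else (4 * n - 1) / 3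

/-- the number of local minima -/
def lm (g : ℕ → ℕ) (m k : ℕ) : ℕ :=
  ((Finset.range k).filter fun j => g^[j + 1] m < g^[j] m ∧ g^[j + 1] m < g^[j + 2] m).card

/-- FEQ (30). -/
def FEQStmt : Prop :=
  ∀ f : ℕ → ℕ, (∀ n : ℕ, 1 ≤ n → f (3 * n) = 2 * n ∧ f (3 * n - 1) = 4 * n - 1 ∧
    f (3 * n - 2) = 4 * n - 3) → ∀ m : ℕ, 1 ≤ m → ∀ i : ℕ, f^[i] m = F^[i] m ∧ 1 ≤ F^[i] m

/-- ASC (40). Proof: `|3 ^ i F^[i] m - 4 ^ i m| ≤ 4 ^ i - 3 ^ i` by induction on `i ≤ a`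
(`3 F x = 4 x ± 1`). -/
def ASCStmt : Prop :=
  ∀ m a : ℕ, 1 ≤ m → 1 ≤ a → (∀ i < a, F^[i] m % 3 ≠ 0) →
    |(3 : ℤ) ^ a * (F^[a] m : ℕ) - 4 ^ a * (m : ℕ)| < 4 ^ a

/-- DSC (30). Induction on `b`. -/
def DSCStmt : Prop :=
  ∀ M b : ℕ, 1 ≤ M → (∀ i < b, F^[i] M % 3 = 0) → ∃ t : ℕ, 1 ≤ t ∧ M = 3 ^ b * t ∧ F^[b] M = 2 ^ b * t

/-- CSQ (80). Proof: count the `j < k` with `d j` and not `d (j + 1)`; as `d` takes both values it is at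
least one, so exactly one, at `j₀`; `s = j₀ + 1`; from `s` on `d` is false up to the first true value at
`s + a`, and it must be true up to `j₀ + k` (otherwise there is a second such `j` modulo `k`). -/
def CSQStmt : Prop :=
  ∀ (d : ℕ → Prop) [DecidablePred d] (k : ℕ), 1 ≤ k → (∀ i, d (i + k) ↔ d i) → (∃ i, d i) →
    (∃ i, ¬ d i) → ((Finset.range k).filter fun j => d j ∧ ¬ d (j + 1)).card ≤ 1 →
    ∃ s a : ℕ, 1 ≤ a ∧ a < k ∧ (∀ i < a, ¬ d (s + i)) ∧ ∀ i, a ≤ i → i < k → d (s + i)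

/-- TRI (60). Proof: `F x < x` iff `3 ∣ x` and `F x > x` iff not, for `x ≥ 2`; `F 1 = 1` and `F x ≥ 2` for
`x ≥ 2` (so `1` is not reached from `m ≥ 2`).  An orbit which is periodic cannot always increase or always
decrease. -/
def TRIStmt : Prop :=
  ∀ m k : ℕ, 2 ≤ m → 1 ≤ k → F^[k] m = m → (∀ i, 2 ≤ F^[i] m) ∧ (∀ i, F^[i + k] m = F^[i] m) ∧
    (∀ i, F^[i + 1] m < F^[i] m ↔ F^[i] m % 3 = 0) ∧
    (∀ i, F^[i] m < F^[i + 1] m ↔ F^[i] m % 3 ≠ 0) ∧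
    (∃ i, F^[i] m % 3 = 0) ∧ ∃ i, F^[i] m % 3 ≠ 0

/-- CHK (40). `t ≤ 3, 3, 1, 4, 1, 2` in the six cases; `decide`. -/
def CHKStmt : Prop :=
  ∀ a b t : ℕ, (a, b) = (1, 1) ∨ (a, b) = (2, 1) ∨ (a, b) = (3, 1) ∨ (a, b) = (3, 2) ∨
      (a, b) = (4, 3) ∨ (a, b) = (7, 5) → 1 ≤ t →
    |(3 : ℤ) ^ (a + b) * t - 2 ^ (2 * a + b) * t| < 4 ^ a →
    (∀ i < a, F^[i] (2 ^ b * t) % 3 ≠ 0) → F^[a] (2 ^ b * t) = 3 ^ b * t →
    2 ^ b * t = 2 ∨ 2 ^ b * t = 4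

/-- ONE (60, needs ASC DSC CSQ TRI). Proof: CSQ for `d i = (3 ∣ F^[i] m)` (`lm` counts the `j` with `d j` and
not `d (j + 1)`, by TRI); `m' = F^[s] m`, `M = F^[a] m'`, `b = k - a`, `F^[b] M = m'`; DSC, ASC. -/
def ONEStmt : Prop :=
  ∀ m k : ℕ, 2 ≤ m → 1 ≤ k → F^[k] m = m → lm F m k ≤ 1 → ∃ s a b t : ℕ, 1 ≤ a ∧ 1 ≤ b ∧ a + b = k ∧
    1 ≤ t ∧ F^[s] m = 2 ^ b * t ∧ (∀ i < a, F^[i] (2 ^ b * t) % 3 ≠ 0) ∧
    F^[a] (2 ^ b * t) = 3 ^ b * t ∧ |(3 : ℤ) ^ (a + b) * t - 2 ^ (2 * a + b) * t| < 4 ^ a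

/-- FIN (50, needs FEQ BIG MID SML CHK ONE TRI). Proof: `m = 1` or ONE; `|3 ^ (a + b) - 2 ^ (2 a + b)| ≤
|…| t < 4 ^ a`; BIG, MID, SML, CHK: `F^[s] m = 2` or `4`, and `m` is on the orbit of this number
(`F^[s'] (F^[s] m) = m` for `s' = s (k - 1)`, or periodicity), which is `{2, 3}` or `{4, 5, 7, 9, 6}`. -/
def FINStmt : Prop :=
  ∀ f : ℕ → ℕ, (∀ n : ℕ, 1 ≤ n → f (3 * n) = 2 * n ∧ f (3 * n - 1) = 4 * n - 1 ∧
    f (3 * n - 2) = 4 * n - 3) → ∀ m k : ℕ, 1 ≤ m → 1 ≤ k → f^[k] m = m →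
    ((Finset.range k).filter fun j => f^[j + 1] m < f^[j] m ∧ f^[j + 1] m < f^[j + 2] m).card ≤ 1 →
    m ∈ ({1, 2, 3, 4, 5, 6, 7, 9} : Finset ℕ)

end Pool.STN
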