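import Pool.Agent.H78.STN.EXB

/-!
# Board STO: finite cycles of Collatz's permutation with at most four local minima (MP_9010c3)

THEOREM.  Let `f (3 n) = 2 n`, `f (3 n - 1) = 4 n - 1`, `f (3 n - 2) = 4 n - 3`.  If `f^[k] m = m` and at
most FOUR indices `j < k` are local minima of the orbit, then `m` lies on one of the four known cycles
`(1)`, `(2 3)`, `(4 5 7 9 6)`, `(44 59 79 105 70 93 62 83 111 74 99 66)` (the last one has exactly four).

PROOF.  Let `m0 ≥ 2` be the least element, `K ≤ 4`.  `k ≤ 12 * 3 ^ K log m0` (`cyc_len`) and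
`|(k + U) log 2 - k log 3| ≤ K / (m0 - 1)` (SUM).  By DIO `k < 2500000` (BG4); by the convergents of
`log 3 / log 2` first `k ≤ 17600`, then `k ≤ 12000`, then `m0 ≤ 100001` (CH4).  All even `m0 ≤ 100001`, not
divisible by three, except `2`, `4`, `44`, `62`, `70`, `74`, pass four local minima before they return
(EN0 - EN9, computation with 600000 steps; checked in Python).
-/

set_option autoImplicit false

open Finset Pool.Agent.H40.COL

namespace Pool.STN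

/-- ISF (20). -/
def ISFStmt : Prop := IsF F

/-- SUM (120). `U` = number of `j < k` with `F^[j] m % 3 ≠ 0`.  Proof: as in `cyc_eq`
(Pool/Agent/H40/COL/Fin.lean) the left side is at most `∑ |log (3 x_(j+1) / (4 x_j))|` over these `j`,
`x_j = F^[j] m`, and each term is at most `1 / (4 x_j - 1) ≤ h_j / 4`, `h_j = 1 / (x_j - 1)`.  As
`x_(j+1) - 1 ≥ (4/3) (x_j - 1)`, `h_j ≤ 4 (h_j - h_(j+1))` for these `j`.  The sum of `h_j - h_(j+1)` over all
`j < k` is `0`, so `∑_up (h_j - h_(j+1)) = ∑_down (h_(j+1) - h_j)`, and with `w_j = h_j` if `3 ∣ x_j` and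
`w_j = 0` otherwise `∑_down (h_(j+1) - h_j) = ∑ over down-up h_(j+1) - ∑ over up-down h_(j+1) ≤
lm / (m0 - 1)` (since `∑ (w_(j+1) - w_j) = 0`). -/
def SUMStmt : Prop :=
  ∀ m k m0 : ℕ, 1 ≤ k → F^[k] m = m → 2 ≤ m0 → (∀ j, m0 ≤ F^[j] m) → ∃ U : ℕ, U ≤ k ∧
    |((k + U : ℕ) : ℝ) * Real.log 2 - (k : ℝ) * Real.log 3| ≤ (lm F m k : ℝ) / ((m0 : ℝ) - 1)

/-- CW2 (60). The minimum is `0.00001819…` at `k = 15601`.  As CNV (H27/STN/CNV.lean) with the convergents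
`24727 / 15601` and `50508 / 31867`. -/
def CW2Stmt : Prop :=
  ∀ k y : ℕ, 1 ≤ k → k < 31867 → 18 / 1000000 ≤ |(k : ℝ) * Real.log 3 - (y : ℝ) * Real.log 2|

/-- CW3 (100). `a = |111202 log 3 - 176251 log 2| = 0.0000036002`,
`b = |190537 log 3 - 301994 log 2| = 0.0000000645075`, opposite signs;
`111202 * 301994 - 176251 * 190537 = ± 1`, so `(k, y) = x (111202, 176251) + z (190537, 301994)`.  If `x = 0`
the value is `|z| b ≥ b`; if `x ≠ 0`: `|z| ≤ 14 |x|`, so the value is at least `|x| (a - 14 b)`.  The bounds for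
`a`, `b` from comparisons of `3 ^ 111202 * N` and `2 ^ 176251 * N'` etc. (kernel arithmetic, `decide`). -/
def CW3Stmt : Prop :=
  ∀ k y : ℕ, 1 ≤ k → k < 2500000 → 6 / 100000000 ≤ |(k : ℝ) * Real.log 3 - (y : ℝ) * Real.log 2|

/-- BG4 (80, needs DIO). Proof: `n = k / 15000 ≥ 166`, `u = k - 2 U`, `v = k - U` as in `exb_least`
(Pool/Agent/H78/STN/EXB.lean); `378 k (343/400) ^ n ≤ 1 / 2`; `m0 - 1 ≥ exp (k / 972) - 1`,
`log 2965950 ≤ 14.9028`, `601 * 8 exp (14.9028 k / 15000) < exp (k / 972) - 1`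
(`1 / 972 - 14.9028 / 15000 > 0.000035`). -/
def BG4Stmt : Prop :=
  ∀ k U m0 : ℕ, U ≤ k → 2500000 ≤ k → 2 ≤ m0 → (k : ℝ) ≤ 972 * Real.log m0 →
    |((k + U : ℕ) : ℝ) * Real.log 2 - (k : ℝ) * Real.log 3| ≤ 4 / ((m0 : ℝ) - 1) → False

/-- CH4 (60, needs CNV CW2 CW3 BG4). Proof: BG4: `k < 2500000`; CW3: `m0 - 1 ≤ 66666667`, `log m0 ≤ 18.1`,
`k ≤ 17600`; CW2: `m0 - 1 ≤ 222223`, `log m0 ≤ 12.33`, `k ≤ 12000`; CNV: `m0 - 1 ≤ 100000`. -/
def CH4Stmt : Prop :=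
  ∀ k U m0 : ℕ, 1 ≤ k → U ≤ k → 2 ≤ m0 → (k : ℝ) ≤ 972 * Real.log m0 →
    |((k + U : ℕ) : ℝ) * Real.log 2 - (k : ℝ) * Real.log 3| ≤ 4 / ((m0 : ℝ) - 1) → m0 ≤ 100001

/-- simulation from `x`: `true` if `c + 1` local minima are passed, none of them equal to `m0`, in at most
`n` steps -/
def sim : ℕ → ℕ → ℕ → ℕ → Bool
  | 0, _, _, _ => false
  | n + 1, m0, x, c =>
    match x % 3 with
    | 0 =>
      bif Nat.beq (2 * (x / 3) % 3) 0 then sim n m0 (2 * (x / 3)) c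
      else bif Nat.beq (2 * (x / 3)) m0 then false
      else match c with
        | 0 => true
        | c + 1 => sim n m0 (2 * (x / 3)) c
    | 1 => sim n m0 ((4 * x - 1) / 3) c
    | _ => sim n m0 ((4 * x + 1) / 3) c

/-- `m0` passes four local minima before it returns -/
def esc (m0 : ℕ) : Prop :=
  ∃ T : ℕ, (∀ j, 1 ≤ j → j ≤ T → F^[j] m0 ≠ m0) ∧
    4 ≤ ((range T).filter fun j => F^[j] m0 % 3 = 0 ∧ F^[j + 1] m0 % 3 ≠ 0).card

/-- SIM (80). Correctness.  Proof: generalise to `x = F^[s] m0` and `c` (induction on `n`).  As `m0` is even it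
can only be the value of `F` at a multiple of three, and it is not a multiple of three, so it can only be
reached as a local minimum. -/
def SIMStmt : Prop :=
  ∀ n m0 : ℕ, 1 ≤ m0 → m0 % 2 = 0 → m0 % 3 ≠ 0 → sim n m0 m0 3 = true → esc m0

/-- EN0, …, EN9 (20 each). Computation: `decide +kernel` on a Boolean function which checks a block (nested
recursion, for instance `100` blocks of `100`); `n = 70` steps are enough. -/
def ENStmt (c : ℕ) : Prop :=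
  ∀ m0 : ℕ, 10000 * c ≤ m0 → m0 < 10000 * (c + 1) + 2 → m0 % 2 = 0 → m0 % 3 ≠ 0 → 5 ≤ m0 → m0 ≠ 44 →
    m0 ≠ 62 → m0 ≠ 70 → m0 ≠ 74 → sim 70 m0 m0 3 = true

/-- ENU (20, needs SIM EN0 EN1 EN2 EN3 EN4 EN5 EN6 EN7 EN8 EN9). -/
def ENUStmt : Prop :=
  ∀ m0 : ℕ, m0 ≤ 100001 → m0 % 2 = 0 → m0 % 3 ≠ 0 → 5 ≤ m0 → m0 ≠ 44 → m0 ≠ 62 → m0 ≠ 70 →
    m0 ≠ 74 → esc m0

/-- ROT (60). Rotation of the cycle.  Proof: the filter condition is periodic with period `k`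
(`Function.Periodic`, `Nat.filter_Ico_card_eq_of_periodic` / `Nat.count`). -/
def ROTStmt : Prop :=
  ∀ (g : ℕ → ℕ) (m k i : ℕ), g^[k] m = m → g^[k] (g^[i] m) = g^[i] m ∧ lm g (g^[i] m) k = lm g m k

/-- ESC (60, needs TRI). Proof: let `T` be from `esc`; `k > T` (as `F^[k] m0 = m0`), and the index `k - 1` is
a fifth one with `F^[k-1] m0 % 3 = 0`, `F^[k] m0 = m0` not divisible by three (`m0` is even, so `F^[k-1] m0` is
a multiple of three). -/
def ESCStmt : Prop :=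
  ∀ m0 k : ℕ, 2 ≤ m0 → 1 ≤ k → F^[k] m0 = m0 → m0 % 2 = 0 → m0 % 3 ≠ 0 → esc m0 → 5 ≤ lm F m0 k

/-- LEA (50, needs TRI). The least element of a cycle is even and not divisible by three.  Proof: it is
`F^[k]` of itself, and `F^[k-1]` of it is larger, so divisible by three, and `F` of a multiple of three is
even; `F` of it is larger. -/
def LEAStmt : Prop :=
  ∀ m k : ℕ, 2 ≤ m → 1 ≤ k → F^[k] m = m → ∃ i : ℕ, (∀ j, F^[i] m ≤ F^[j] m) ∧ 2 ≤ F^[i] m ∧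
    F^[i] m % 2 = 0 ∧ F^[i] m % 3 ≠ 0

/-- FI4 (80, needs ISF SUM CH4 ENU ROT ESC LEA TRI FEQ). Proof: `m = 1` or LEA, `m0 = F^[i] m`; ROT;
`cyc_len` for `IsF F` (ISF; `lm F m k ≤ 4`), SUM, CH4: `m0 ≤ 100001`; ESC, ENU: `m0 ∈ {2, 4, 44, 62, 70, 74}`, and
`m` is on the orbit of `m0`, which is one of the known cycles (`decide`). -/
def FI4Stmt : Prop :=
  ∀ f : ℕ → ℕ, (∀ n : ℕ, 1 ≤ n → f (3 * n) = 2 * n ∧ f (3 * n - 1) = 4 * n - 1 ∧
    f (3 * n - 2) = 4 * n - 3) → ∀ m k : ℕ, 1 ≤ m → 1 ≤ k → f^[k] m = m →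
    ((Finset.range k).filter fun j => f^[j + 1] m < f^[j] m ∧ f^[j + 1] m < f^[j + 2] m).card ≤ 4 →
    m ∈ ({1, 2, 3, 4, 5, 6, 7, 9, 44, 59, 79, 105, 70, 93, 62, 83, 111, 74, 99, 66} : Finset ℕ)

end Pool.STN
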